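import Pool.Agent.Helper46.T6.Stmts
import Pool.Agent.Helper53.T6.PTV

set_option autoImplicit false

/-!
MP_2f9829_co (T6; after helper37): the action of the matrices on the replicas (module ACTM).
-/

open Finset MeasureTheory Filter Topology

namespace Pool.Agent.Helper15.T6.Actm

open Pool.Agent.Helper15.T4 (nsq)
open Pool.Agent.Helper15.T6
open Pool.Agent.Helper46.T6
open Pool.Agent.Helper53.T6

theorem sum_prod_fun {R : Type} [CommRing R] {d : ℕ} {J : Type} [Fintype J] [DecidableEq J]
    (F : J → Fin d → R) : ∑ a : J → Fin d, ∏ j, F j (a j) = ∏ j, ∑ i, F j i := by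
  have h2 := Finset.prod_univ_sum (fun _ : J => (univ : Finset (Fin d))) F
  rw [Fintype.piFinset_univ] at h2
  rw [← h2]

theorem act_act {R : Type} [CommRing R] {d : ℕ} {J : Type} [Fintype J] [DecidableEq J]
    (A B : J → Matrix (Fin d) (Fin d) R) (x : (J → Fin d) → R) :
    act A (act B x) = act (fun j => A j * B j) x := by
  funext a
  unfold act
  calc _ = ∑ b : J → Fin d, ∑ c : J → Fin d, (∏ j, A j (a j) (b j)) * ((∏ j, B j (b j) (c j)) * x c) :=
        Finset.sum_congr rfl fun b _ => Finset.mul_sum _ _ _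
    _ = ∑ c : J → Fin d, ∑ b : J → Fin d, (∏ j, A j (a j) (b j)) * ((∏ j, B j (b j) (c j)) * x c) :=
        Finset.sum_comm
    _ = _ := by
      refine Finset.sum_congr rfl fun c _ => ?_
      have e1 : ∀ b : J → Fin d, (∏ j, A j (a j) (b j)) * ((∏ j, B j (b j) (c j)) * x c) =
          (∏ j, A j (a j) (b j) * B j (b j) (c j)) * x c := by
        intro b
        rw [Finset.prod_mul_distrib]
        ring
      rw [Finset.sum_congr rfl fun b _ => e1 b, ← Finset.sum_mul,
        sum_prod_fun (fun j i => A j (a j) i * B j i (c j))]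
      simp only [Matrix.mul_apply]

theorem act_one {R : Type} [CommRing R] {d : ℕ} {J : Type} [Fintype J] [DecidableEq J]
    (x : (J → Fin d) → R) : act (fun _ : J => (1 : Matrix (Fin d) (Fin d) R)) x = x := by
  classical
  funext a
  unfold act
  rw [Finset.sum_eq_single a]
  · simp
  · intro b _ hb
    have : ∃ j, a j ≠ b j := by
      by_contra hcon
      push Not at hcon
      exact hb (funext fun j => (hcon j).symm)
    obtain ⟨j, hj⟩ := this
    have h0 : (∏ j, (1 : Matrix (Fin d) (Fin d) R) (a j) (b j)) = 0 :=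
      Finset.prod_eq_zero (Finset.mem_univ j) (Matrix.one_apply_ne hj)
    rw [h0, zero_mul]
  · intro h
    exact absurd (Finset.mem_univ a) h

theorem ip_act {d : ℕ} {J : Type} [Fintype J] [DecidableEq J] (A : J → Md d) (x y : (J → Fin d) → ℝ) :
    ip (act A x) y = ip x (act (fun j => (A j).transpose) y) := by
  unfold ip act
  calc _ = ∑ a : J → Fin d, ∑ b : J → Fin d, (∏ j, A j (a j) (b j)) * x b * y a :=
        Finset.sum_congr rfl fun a _ => Finset.sum_mul _ _ _
    _ = ∑ b : J → Fin d, ∑ a : J → Fin d, (∏ j, A j (a j) (b j)) * x b * y a := Finset.sum_comm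
    _ = _ := by
      refine Finset.sum_congr rfl fun b _ => ?_
      rw [Finset.mul_sum]
      refine Finset.sum_congr rfl fun a _ => ?_
      simp only [Matrix.transpose_apply]
      ring

theorem act_pt {d : ℕ} {J : Type} [Fintype J] [DecidableEq J] {K : ℕ} (A : J → Md d)
    (φ : Fin K × Fin 2 ≃ J) (O : Fin K → Md d) :
    act A (pt φ O) = pt φ (fun p => A (φ (p, 0)) * O p * (A (φ (p, 1))).transpose) := by
  funext a
  unfold act pt
  have e1 : ∀ b : J → Fin d, (∏ j, A j (a j) (b j)) *
      (∏ p, O p (b (φ (p, 0))) (b (φ (p, 1))) / Real.sqrt d) =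
      ∏ p, A (φ (p, 0)) (a (φ (p, 0))) (b (φ (p, 0))) * A (φ (p, 1)) (a (φ (p, 1))) (b (φ (p, 1))) *
        (O p (b (φ (p, 0))) (b (φ (p, 1))) / Real.sqrt d) := by
    intro b
    rw [prod_pair φ, ← Finset.prod_mul_distrib]
  rw [Finset.sum_congr rfl fun b _ => e1 b,
    sum_prod_pair φ (fun p i k => A (φ (p, 0)) (a (φ (p, 0))) i * A (φ (p, 1)) (a (φ (p, 1))) k *
        (O p i k / Real.sqrt d))]
  refine Finset.prod_congr rfl fun p _ => ?_
  simp only [Matrix.mul_apply, Matrix.transpose_apply, Finset.sum_mul, Finset.sum_div]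
  rw [Finset.sum_comm]
  refine Finset.sum_congr rfl fun k _ => Finset.sum_congr rfl fun i _ => ?_
  ring

theorem st_ACTM : ST_ACTM :=
  ⟨fun _ _ _ _ _ _ A B x => ⟨act_act A B x, act_one x⟩,
    fun _ _ _ _ A x y => ip_act A x y, fun _ _ _ _ _ A φ O => act_pt A φ O⟩

end Pool.Agent.Helper15.T6.Actm
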