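import Pool.Agent.Helper15.T6.OUT
import Pool.Agent.Helper19.T6.PSC

set_option autoImplicit false

/-!
MP_2f9829_co, general `d`: module FPI (after helper81): the gauge fixing identity.
-/

open Finset MeasureTheory Filter Topology

namespace Pool.Agent.Helper15.T6.Fpi

open Pool.Agent.Helper15.T4 (nsq)
open Pool.Agent.Helper15.T6
open Pool.Agent.Helper46.T6
open Pool.Agent.Helper46.T6.PSC19 (Fx mu Fx_pos Fx_le Fx_int cont_Fx Psid_eq)
open Pool.Agent.Helper8.T6 (nsq_act act_sub nsq_perm)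

/-- The quotient. -/
noncomputable def gg (d K N : ℕ) (y : (Fin K × Fin 2 → Fin d) → ℝ) : ℝ :=
  fvd d K y ^ (2 * N) / Psid d K N y

theorem units_sq (s : ℤˣ) : ((s : ℤ) : ℝ) ^ 2 = 1 := by
  rcases Int.units_eq_one_or s with h | h <;> simp [h]

theorem nsq_smul' {ι : Type} [Fintype ι] (s : ℤˣ) (x : ι → ℝ) :
    nsq (fun a => ((s : ℤ) : ℝ) * x a) = nsq x := by
  unfold nsq
  refine Finset.sum_congr rfl (fun i _ => ?_)
  rw [mul_pow, units_sq, one_mul]

theorem PJ_smul {d : ℕ} (J : Type) [Fintype J] [DecidableEq J] (s : ℝ) (x : (J → Fin d) → ℝ) :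
    PJ J (fun a => s * x a) = s ^ d * PJ J x := by
  unfold PJ TJ
  rw [Finset.mul_sum]
  refine Finset.sum_congr rfl (fun π _ => ?_)
  rw [Finset.prod_mul_distrib, Finset.prod_const, Finset.card_univ, Fintype.card_fin]
  ring

/-- The substitution. -/
noncomputable def TT {d K : ℕ} (s : ℤˣ) (π : Equiv.Perm (Fin K × Fin 2))
    (A : Fin K × Fin 2 → Md d) (z : (Fin K × Fin 2 → Fin d) → ℝ) :
    (Fin K × Fin 2 → Fin d) → ℝ :=
  fun a => ((s : ℤ) : ℝ) * act A z (a ∘ π)

theorem nsq_TT (hM : ST_ACTM) {d K : ℕ} (s : ℤˣ) (π : Equiv.Perm (Fin K × Fin 2))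
    (A : Fin K × Fin 2 → Md d) (hA : ∀ j, OD (A j)) (z : (Fin K × Fin 2 → Fin d) → ℝ) :
    nsq (TT s π A z) = nsq z := by
  unfold TT
  rw [nsq_smul' s (fun a : Fin K × Fin 2 → Fin d => act A z (a ∘ π)), nsq_perm π (act A z),
    nsq_act hM _ A hA]

theorem TT_sub {d K : ℕ} (s : ℤˣ) (π : Equiv.Perm (Fin K × Fin 2))
    (A : Fin K × Fin 2 → Md d) (z w : (Fin K × Fin 2 → Fin d) → ℝ) :
    (fun a => TT s π A z a - TT s π A w a) = TT s π A (fun a => z a - w a) := by
  funext a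
  unfold TT
  rw [act_sub]
  ring

theorem det_sq {d : ℕ} {A : Md d} (h : OD A) : A.det ^ 2 = 1 := by
  have h1 := congrArg Matrix.det (show A * A.transpose = 1 from h)
  rw [Matrix.det_mul, Matrix.det_transpose, Matrix.det_one] at h1
  rw [pow_two, h1]

theorem fvd_TT (hM : ST_ACTM) (hT : ST_ACTT) (hP : ST_PERMT) {d K : ℕ} (N : ℕ) (s : ℤˣ)
    (π : Equiv.Perm (Fin K × Fin 2))
    (A : Fin K × Fin 2 → Md d) (hA : ∀ j, OD (A j)) (z : (Fin K × Fin 2 → Fin d) → ℝ) :
    fvd d K (TT s π A z) ^ (2 * N) = fvd d K z ^ (2 * N) := by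
  have h1 : PJ (Fin K × Fin 2) (TT s π A z) =
      ((s : ℤ) : ℝ) ^ d * ((∏ j, (A j).det) * PJ (Fin K × Fin 2) z) := by
    unfold TT
    rw [PJ_smul (Fin K × Fin 2) ((s : ℤ) : ℝ) (fun a : Fin K × Fin 2 → Fin d => act A z (a ∘ π))]
    congr 1
    unfold PJ
    rw [hP ℝ d (Fin K × Fin 2) (Fin K × Fin 2) π (fun _ => act A z),
      hT ℝ d (Fin K × Fin 2) A (fun _ => z)]
  have h2 : fvd d K (TT s π A z) ^ 2 = fvd d K z ^ 2 := by
    unfold fvd
    rw [h1, nsq_TT hM s π A hA z]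
    have h3 : (((s : ℤ) : ℝ) ^ d) ^ 2 = 1 := by
      rw [← pow_mul, mul_comm, pow_mul, units_sq, one_pow]
    have h4 : (∏ j, (A j).det) ^ 2 = 1 := by
      rw [← Finset.prod_pow, Finset.prod_eq_one (fun j _ => det_sq (hA j))]
    rw [div_pow, div_pow, mul_pow, mul_pow, mul_pow, mul_pow, h3, h4, one_mul, one_mul]
  rw [pow_mul, h2, pow_mul]

theorem Psid_TT (hI : ST_PSINV) {d K : ℕ} (N : ℕ) (s : ℤˣ)
    (π : Equiv.Perm (Fin K × Fin 2))
    (A : Fin K × Fin 2 → Md d) (hA : ∀ j, OD (A j)) (z : (Fin K × Fin 2 → Fin d) → ℝ) :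
    Psid d K N (TT s π A z) = Psid d K N z := by
  have h1 : Psid d K N (fun a => act A z (a ∘ π)) = Psid d K N z := by
    rw [(hI d K N (act A z)).2.1 π, (hI d K N z).1 A hA]
  rcases Int.units_eq_one_or s with h | h
  · have : TT s π A z = fun a => act A z (a ∘ π) := by
      funext a
      simp [TT, h]
    rw [this, h1]
  · have : TT s π A z = fun a => -(act A z (a ∘ π)) := by
      funext a
      simp [TT, h]
    rw [this, (hI d K N (fun a => act A z (a ∘ π))).2.2, h1]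

theorem int_TT (hV : ST_ACTV) {d K : ℕ} (s : ℤˣ)
    (π : Equiv.Perm (Fin K × Fin 2))
    (A : Fin K × Fin 2 → Md d) (hA : ∀ j, OD (A j)) (G : ((Fin K × Fin 2 → Fin d) → ℝ) → ℝ) :
    ∫ z, G (TT s π A z) = ∫ y, G y := by
  have h1 := hV.1 d (Fin K × Fin 2) A
    (fun x => G (fun a : Fin K × Fin 2 → Fin d => ((s : ℤ) : ℝ) * x (a ∘ π))) hA
  have h2 := hV.2 d (Fin K × Fin 2) π (fun x => G (fun a => ((s : ℤ) : ℝ) * x a))
  refine (h1.trans h2).trans ?_
  rcases Int.units_eq_one_or s with h | h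
  · simp [h]
  · have h3 : ∀ x : (Fin K × Fin 2 → Fin d) → ℝ, (fun a => ((s : ℤ) : ℝ) * x a) = -x := by
      intro x
      funext a
      simp [h]
    simp only [h3]
    exact integral_neg_eq_self G volume

/-- The product is the image of the peak. -/
theorem TT_u0 (hM : ST_ACTM) {d K : ℕ} (s : ℤˣ) (π : Equiv.Perm (Fin K × Fin 2))
    (O : Fin K → Md d) : TT s π (fun j => if j.2 = 0 then O j.1 else 1) (u0 d K) =
      fun a => ((s : ℤ) : ℝ) * pt π O a := by
  have h1 := hM.2.2 d K (Fin K × Fin 2) (fun j => if j.2 = 0 then O j.1 else 1) (Equiv.refl _)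
    (fun _ => 1)
  funext a
  unfold TT u0
  rw [h1]
  simp [pt]

/-- The inner integral. -/
theorem inner_int (hI : ST_PSINV) (hT : ST_ACTT) (hM : ST_ACTM) (hP : ST_PERMT) (hV : ST_ACTV)
    (d K N : ℕ) (s : ℤˣ) (π : Equiv.Perm (Fin K × Fin 2)) (O : Fin K → GO d) :
    ∫ y, gg d K N y * Fx d K N s π y O =
      ∫ z, gg d K N z * Real.exp (-(N : ℝ) * nsq (fun a => z a - u0 d K a)) := by
  set O' : Fin K → Md d := fun p => ((O p : GO d) : Md d) with hO'
  have hO : ∀ p, OD (O' p) := fun p => (Matrix.mem_orthogonalGroup_iff (Fin d) ℝ).mp (O p).2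
  have hA : ∀ j : Fin K × Fin 2,
      OD ((fun j : Fin K × Fin 2 => if j.2 = 0 then O' j.1 else 1) j) := by
    intro j
    by_cases h : j.2 = 0
    · simp only [h, if_true]
      exact hO j.1
    · simp only [h, if_false]
      unfold OD; simp
  rw [← int_TT hV s π _ hA]
  refine integral_congr_ae (Eventually.of_forall (fun z => ?_))
  simp only
  unfold gg Fx
  rw [fvd_TT hM hT hP N s π _ hA, Psid_TT hI N s π _ hA]
  have h1 : (fun a => TT s π (fun j => if j.2 = 0 then O' j.1 else 1) z a -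
      ((s : ℤ) : ℝ) * pt π O' a) =
      TT s π (fun j => if j.2 = 0 then O' j.1 else 1) (fun a => z a - u0 d K a) := by
    rw [← TT_sub, TT_u0 hM s π O']
  rw [h1, nsq_TT hM s π _ hA]

theorem cont_gg (hS : ST_PSC) (d K N : ℕ) : Continuous (gg d K N) := by
  unfold gg
  exact ((Out.cont_fvd d K).pow _).div (hS d K N).1 (fun y => ((hS d K N).2.1 y).ne')

theorem gg_nonneg (hS : ST_PSC) (d K N : ℕ) (y : (Fin K × Fin 2 → Fin d) → ℝ) :
    0 ≤ gg d K N y := by
  unfold gg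
  refine div_nonneg ?_ ((hS d K N).2.1 y).le
  rw [pow_mul]
  positivity

/-- The integrand of Fubini. -/
noncomputable def FF (d K N : ℕ) (s : ℤˣ) (π : Equiv.Perm (Fin K × Fin 2))
    (q : ((Fin K × Fin 2 → Fin d) → ℝ) × (Fin K → GO d)) : ℝ :=
  gg d K N q.1 * Fx d K N s π q.1 q.2

theorem cont_FF (hS : ST_PSC) (d K N : ℕ) (s : ℤˣ) (π : Equiv.Perm (Fin K × Fin 2)) :
    Continuous (FF d K N s π) := by
  unfold FF
  exact ((cont_gg hS d K N).comp continuous_fst).mul (cont_Fx d K N s π)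

theorem FF_nonneg (hS : ST_PSC) (d K N : ℕ) (s : ℤˣ) (π : Equiv.Perm (Fin K × Fin 2))
    (q : ((Fin K × Fin 2 → Fin d) → ℝ) × (Fin K → GO d)) : 0 ≤ FF d K N s π q :=
  mul_nonneg (gg_nonneg hS d K N _) (Fx_pos d K N s π q.1 q.2).le

theorem AV_le_Psi (d K N : ℕ) (s : ℤˣ) (π : Equiv.Perm (Fin K × Fin 2))
    (y : (Fin K × Fin 2 → Fin d) → ℝ) :
    ∫ O, Fx d K N s π y O ∂(mu d K) ≤ Psid d K N y := by
  rw [Psid_eq]
  refine le_trans ?_ (Finset.single_le_sum (f := fun s : ℤˣ =>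
    ∑ π : Equiv.Perm (Fin K × Fin 2), ∫ O, Fx d K N s π y O ∂(mu d K))
    (fun s _ => Finset.sum_nonneg
      (fun π _ => integral_nonneg (fun O => (Fx_pos d K N s π y O).le)))
    (Finset.mem_univ s))
  exact Finset.single_le_sum (f := fun π : Equiv.Perm (Fin K × Fin 2) =>
    ∫ O, Fx d K N s π y O ∂(mu d K))
    (fun π _ => integral_nonneg (fun O => (Fx_pos d K N s π y O).le))
    (Finset.mem_univ π)

theorem fvd_int (hPM : ST_PMAXR) (d K N : ℕ) (hd : 1 ≤ d) (hN : 0 < N) :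
    Integrable (fun y : (Fin K × Fin 2 → Fin d) → ℝ => fvd d K y ^ (2 * N)) := by
  refine ((Out.integ (Fin K × Fin 2 → Fin d)).const_mul (4 * Real.exp 1)).mono'
    ((Out.cont_fvd d K).pow _).aestronglyMeasurable (Eventually.of_forall fun y => ?_)
  rw [pow_mul, Real.norm_eq_abs, abs_of_nonneg (by positivity)]
  have h0 := Out.fvd_sq_le_one hPM hd y
  have h1 := Out.fvd_sq_le_G hPM hd y
  set s := nsq y with hs
  have hs4 : s ≤ 4 * Real.exp (s / 4) := by
    have := Real.add_one_le_exp (s / 4)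
    have := Out.nn y
    linarith
  have hs0 : 0 ≤ s := Out.nn y
  calc (fvd d K y ^ 2) ^ N ≤ fvd d K y ^ 2 := pow_le_of_le_one (sq_nonneg _) h0 (by omega)
    _ ≤ s * Real.exp (1 - s) := h1
    _ ≤ 4 * Real.exp (s / 4) * Real.exp (1 - s) := by gcongr
    _ = 4 * Real.exp (1 - 3 * s / 4) := by
        rw [mul_assoc, ← Real.exp_add]; congr 2; ring
    _ ≤ 4 * Real.exp (1 + -s / 2) := by
        have : Real.exp (1 - 3 * s / 4) ≤ Real.exp (1 + -s / 2) :=
          Real.exp_le_exp.2 (by linarith)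
        linarith
    _ = 4 * Real.exp 1 * Real.exp (-s / 2) := by rw [Real.exp_add]; ring

theorem int_FF (hPM : ST_PMAXR) (hS : ST_PSC) (d K N : ℕ) (hd : 1 ≤ d) (hN : 0 < N) (s : ℤˣ)
    (π : Equiv.Perm (Fin K × Fin 2)) :
    Integrable (FF d K N s π) ((volume : Measure ((Fin K × Fin 2 → Fin d) → ℝ)).prod
      (mu d K)) := by
  have hm : AEStronglyMeasurable (FF d K N s π)
      ((volume : Measure ((Fin K × Fin 2 → Fin d) → ℝ)).prod (mu d K)) :=
    (cont_FF hS d K N s π).aestronglyMeasurable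
  rw [integrable_prod_iff hm]
  refine ⟨Eventually.of_forall (fun y => ?_), ?_⟩
  · exact (Fx_int d K N s π y).const_mul (gg d K N y)
  · refine Integrable.mono' (fvd_int hPM d K N hd hN) hm.norm.integral_prod_right'
      (Eventually.of_forall (fun y => ?_))
    have e1 : ∫ O, ‖FF d K N s π (y, O)‖ ∂(mu d K) =
        gg d K N y * ∫ O, Fx d K N s π y O ∂(mu d K) := by
      rw [← integral_const_mul]
      exact integral_congr_ae (Eventually.of_forall
        (fun O => Real.norm_of_nonneg (FF_nonneg hS d K N s π _)))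
    have hA : 0 ≤ ∫ O, Fx d K N s π y O ∂(mu d K) :=
      integral_nonneg (fun O => (Fx_pos d K N s π y O).le)
    rw [e1, Real.norm_of_nonneg (mul_nonneg (gg_nonneg hS d K N y) hA)]
    refine (mul_le_mul_of_nonneg_left (AV_le_Psi d K N s π y) (gg_nonneg hS d K N y)).trans
      (le_of_eq ?_)
    unfold gg
    exact div_mul_cancel₀ _ ((hS d K N).2.1 y).ne'

/-- FPI. -/
theorem st_FPI (hI : ST_PSINV) (hS : ST_PSC) (hT : ST_ACTT) (hM : ST_ACTM) (hP : ST_PERMT)
    (hV : ST_ACTV) (hPM : ST_PMAXR) : ST_FPI := by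
  intro d K N hd hN
  set I := ∫ z, gg d K N z * Real.exp (-(N : ℝ) * nsq (fun a => z a - u0 d K a)) with hIdef
  have key : ∀ (s : ℤˣ) (π : Equiv.Perm (Fin K × Fin 2)),
      ∫ y, gg d K N y * ∫ O, Fx d K N s π y O ∂(mu d K) = I := by
    intro s π
    have e1 : ∫ y, gg d K N y * ∫ O, Fx d K N s π y O ∂(mu d K) =
        ∫ y, ∫ O, FF d K N s π (y, O) ∂(mu d K) := by
      refine integral_congr_ae (Eventually.of_forall (fun y => ?_))
      exact (integral_const_mul (gg d K N y) (fun O => Fx d K N s π y O)).symm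
    rw [e1, integral_integral_swap (f := fun y O => FF d K N s π (y, O))
      (int_FF hPM hS d K N hd hN s π)]
    have e2 : ∀ O : Fin K → GO d, ∫ y, FF d K N s π (y, O) = I := by
      intro O
      rw [hIdef, ← inner_int hI hT hM hP hV d K N s π O]
      rfl
    simp only [e2]
    simp
  have hint : ∀ (s : ℤˣ) (π : Equiv.Perm (Fin K × Fin 2)),
      Integrable (fun y => gg d K N y * ∫ O, Fx d K N s π y O ∂(mu d K)) := by
    intro s π
    have h := (int_FF hPM hS d K N hd hN s π).integral_prod_left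
    refine h.congr (Eventually.of_forall (fun y => ?_))
    exact integral_const_mul (gg d K N y) (fun O => Fx d K N s π y O)
  have e4 : ∀ y, fvd d K y ^ (2 * N) = ∑ s : ℤˣ, ∑ π : Equiv.Perm (Fin K × Fin 2),
      gg d K N y * ∫ O, Fx d K N s π y O ∂(mu d K) := by
    intro y
    simp only [← Finset.mul_sum]
    rw [← Psid_eq]
    unfold gg
    exact (div_mul_cancel₀ _ ((hS d K N).2.1 y).ne').symm
  have e5 : ∫ y, fvd d K y ^ (2 * N) =
      ∑ _s : ℤˣ, ∑ _π : Equiv.Perm (Fin K × Fin 2), I := by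
    simp only [e4]
    rw [integral_finsetSum _ (fun s _ => integrable_finsetSum _ (fun π _ => hint s π))]
    refine Finset.sum_congr rfl (fun s _ => ?_)
    rw [integral_finsetSum _ (fun π _ => hint s π)]
    exact Finset.sum_congr rfl (fun π _ => key s π)
  rw [e5]
  have e6 : I = ∫ y, fvd d K y ^ (2 * N) *
      Real.exp (-(N : ℝ) * nsq (fun a => y a - u0 d K a)) / Psid d K N y := by
    rw [hIdef]
    refine integral_congr_ae (Eventually.of_forall (fun y => ?_))
    simp only [gg]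
    ring
  rw [← e6]
  simp only [Finset.sum_const, Finset.card_univ, Fintype.card_units_int, Fintype.card_perm,
    Fintype.card_prod, Fintype.card_fin, nsmul_eq_mul]
  rw [mul_comm K 2]
  push_cast
  ring

end Pool.Agent.Helper15.T6.Fpi
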