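import Pool.Agent.Helper98.T6.LOW2

set_option autoImplicit false

/-!
MP_2f9829_co, general `d`: module LOW1 (global lower bound for `Psid`).
-/

open Finset MeasureTheory Filter Topology

namespace Pool.Agent.Helper15.T6.Low1

open Pool.Agent.Helper15.T4 (nsq)
open Pool.Agent.Helper15.T6
open Pool.Agent.Helper46.T6
open Pool.Agent.Helper98.T6

theorem tri {ι : Type} [Fintype ι] (x u p : ι → ℝ) (b : ℝ) (hb : 0 ≤ b)
    (h : nsq (fun a => p a - u a) ≤ b ^ 2) :
    nsq (fun a => x a - p a) ≤ nsq (fun a => x a - u a) +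
      2 * Real.sqrt (nsq (fun a => x a - u a)) * b + b ^ 2 := by
  set A := nsq (fun a => x a - u a) with hA
  have hA0 : 0 ≤ A := sum_nonneg fun _ _ => sq_nonneg _
  have e : nsq (fun a => x a - p a) = A + nsq (fun a => p a - u a) -
      2 * ∑ a, (x a - u a) * (p a - u a) := by
    rw [hA]
    unfold nsq
    rw [mul_sum, ← sum_add_distrib, ← sum_sub_distrib]
    refine sum_congr rfl fun a _ => ?_
    ring
  have cs := Finset.sum_mul_sq_le_sq_mul_sq (univ : Finset ι) (fun a => x a - u a)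
    (fun a => p a - u a)
  have cs' : (∑ a, (x a - u a) * (p a - u a)) ^ 2 ≤ A * b ^ 2 :=
    cs.trans (mul_le_mul_of_nonneg_left h hA0)
  have h1 : |∑ a, (x a - u a) * (p a - u a)| ≤ Real.sqrt A * b := by
    rw [← Real.sqrt_sq hb, ← Real.sqrt_mul hA0]
    exact Real.abs_le_sqrt cs'
  have h2 := (abs_le.1 h1).1
  rw [e]
  linarith

/-- LOW1. -/
theorem st_LOW1 (hLOC : ST_LOC) (hDBL : ST_DBL) : ST_LOW1 := by
  intro d hd K
  obtain ⟨C, hC, hL⟩ := hLOC d hd K
  obtain ⟨c, E, hc, hV⟩ := (hDBL d).2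
  set D : ℝ := (C + 1) * (K + 1) with hD
  have hD0 : 0 < D := by positivity
  have hD1 : 1 ≤ D := by
    have h1 : (0 : ℝ) ≤ K := by positivity
    nlinarith
  refine ⟨(c / D ^ E) ^ K * Real.exp (-1), 2 * E * K, by positivity, fun N hN x => ?_⟩
  have hN0 : (0 : ℝ) < (N : ℝ) := by exact_mod_cast hN
  have hN1 : (1 : ℝ) ≤ (N : ℝ) := by exact_mod_cast hN
  set R : ℝ := 1 / (D * (N : ℝ) ^ 2) with hR
  have hR0 : 0 < R := by positivity
  have hR1 : R ≤ 1 := by
    rw [hR, div_le_one (by positivity)]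
    nlinarith
  set A := nsq (fun a => x a - u0 d K a) with hA
  have h1 := Psid_ball d K N x R (Real.exp (-(N : ℝ) * A - 2 * Real.sqrt A - 1)) (by
    intro O hO
    refine Real.exp_le_exp.2 ?_
    have h2 := (hL (fun p => ((O p : GO d) : Md d)) (fun p => OD_GO (O p))).2
    have h3 : ∑ p : Fin K, nsqm (((O p : GO d) : Md d) - 1) ≤ K * R := by
      calc ∑ p : Fin K, nsqm (((O p : GO d) : Md d) - 1) ≤ ∑ _p : Fin K, R :=
            sum_le_sum fun p _ => hO p
        _ = K * R := by simp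
    have h4 : nsq (fun a => pt (Equiv.refl _) (fun p => ((O p : GO d) : Md d)) a - u0 d K a) ≤
        (1 / (N : ℝ)) ^ 2 := by
      refine h2.trans ((mul_le_mul_of_nonneg_left h3 hC.le).trans ?_)
      rw [hR, hD, ← mul_assoc, mul_one_div, one_div_pow, div_le_div_iff₀ (by positivity)
        (by positivity)]
      have h5 : C * (K : ℝ) ≤ (C + 1) * (K + 1) := by
        have h6 : (0 : ℝ) ≤ K := by positivity
        nlinarith
      nlinarith [mul_le_mul_of_nonneg_right h5 (sq_nonneg (N : ℝ))]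
    have h5 := tri x (u0 d K) (pt (Equiv.refl _) (fun p => ((O p : GO d) : Md d))) (1 / N)
      (by positivity) h4
    rw [← hA] at h5
    have h6 : (N : ℝ) * nsq (fun a => x a -
        pt (Equiv.refl _) (fun p => ((O p : GO d) : Md d)) a) ≤
        N * (A + 2 * Real.sqrt A * (1 / N) + (1 / N) ^ 2) :=
      mul_le_mul_of_nonneg_left h5 hN0.le
    have h7 : (N : ℝ) * (A + 2 * Real.sqrt A * (1 / N) + (1 / N) ^ 2) =
        N * A + 2 * Real.sqrt A + 1 / N := by
      field_simp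
    have h8 : 1 / (N : ℝ) ≤ 1 := (div_le_one hN0).2 hN1
    linarith)
  refine le_trans ?_ h1
  have h2 := hV R hR0 hR1
  have h3 : c / D ^ E / ((N : ℝ) ^ 2) ^ E ≤ vb d R := by
    refine le_trans (le_of_eq ?_) h2
    rw [hR, div_pow, one_pow, mul_pow D ((N : ℝ) ^ 2) E, div_div, mul_one_div]
  have h4 : (c / D ^ E / ((N : ℝ) ^ 2) ^ E) ^ K ≤ vb d R ^ K :=
    pow_le_pow_left₀ (by positivity) h3 K
  have h5 : (c / D ^ E / ((N : ℝ) ^ 2) ^ E) ^ K = (c / D ^ E) ^ K / (N : ℝ) ^ (2 * E * K) := by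
    rw [div_pow, ← pow_mul, ← pow_mul, mul_assoc]
  rw [h5] at h4
  have h6 : Real.exp (-(N : ℝ) * A - 2 * Real.sqrt A - 1) =
      Real.exp (-1) * Real.exp (-(N : ℝ) * A - 2 * Real.sqrt A) := by
    rw [← Real.exp_add]; congr 1; ring
  rw [h6]
  calc (c / D ^ E) ^ K * Real.exp (-1) / (N : ℝ) ^ (2 * E * K) *
        Real.exp (-(N : ℝ) * A - 2 * Real.sqrt A)
      = (c / D ^ E) ^ K / (N : ℝ) ^ (2 * E * K) *
        (Real.exp (-1) * Real.exp (-(N : ℝ) * A - 2 * Real.sqrt A)) := by ring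
    _ ≤ _ := mul_le_mul_of_nonneg_right h4 (by positivity)

end Pool.Agent.Helper15.T6.Low1
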