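import Pool.Agent.Helper46.T6.Stmts

set_option autoImplicit false

/-!
MP_2f9829_co, general `d`: module SEP (after helper74): a product determines the matching, and the
factors up to signs.
-/

open Finset

namespace Pool.Agent.Helper15.T6.Sep

open Pool.Agent.Helper15.T6 Pool.Agent.Helper46.T6

theorem od_apply {d : ℕ} {M : Md d} (h : OD M) (x x' : Fin d) :
    ∑ y, M x y * M x' y = if x = x' then 1 else 0 := by
  have h1 := congrFun (congrFun h x) x'
  rw [Matrix.mul_apply, Matrix.one_apply] at h1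
  simpa [Matrix.transpose_apply] using h1

theorem nz {d : ℕ} (hd : 2 ≤ d) (M : Md d) (h : OD M) : ∃ i j, M i j ≠ 0 := by
  by_contra hc
  push Not at hc
  have h0 := od_apply h ⟨0, by omega⟩ ⟨0, by omega⟩
  simp [hc] at h0

theorem minor_det {d : ℕ} (hd : 2 ≤ d) (M : Md d)
    (h : ∀ x y x' y', M x y * M x' y' = M x y' * M x' y) : ¬ OD M := by
  intro hM
  set i : Fin d := ⟨0, by omega⟩ with hi
  set j : Fin d := ⟨1, by omega⟩ with hj
  have hij : i ≠ j := by
    intro h
    have := congrArg Fin.val h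
    simp [hi, hj] at this
  have h1 := od_apply hM i i
  have h2 := od_apply hM j j
  have h3 := od_apply hM i j
  rw [if_pos rfl] at h1 h2
  rw [if_neg hij] at h3
  have h4 : (∑ y, M i y * M i y) * (∑ y', M j y' * M j y') =
      (∑ y, M i y * M j y) * (∑ y', M i y' * M j y') := by
    rw [sum_mul_sum, sum_mul_sum]
    refine sum_congr rfl fun y _ => sum_congr rfl fun y' _ => ?_
    have := h i y j y'
    linear_combination (M i y * M j y') * this
  rw [h1, h2, h3] at h4
  norm_num at h4

theorem s3 {d : ℕ} (hd : 2 ≤ d) : Real.sqrt (d : ℝ) ≠ 0 := by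
  have : (0 : ℝ) < Real.sqrt d := Real.sqrt_pos.mpr (by exact_mod_cast (show 0 < d by omega))
  exact this.ne'

section

set_option linter.unusedSectionVars false

variable {d K : ℕ} {J : Type} [Fintype J] [DecidableEq J]

/-- one factor -/
noncomputable def fac (φ : Fin K × Fin 2 ≃ J) (O : Fin K → Md d) (p : Fin K) (a : J → Fin d) : ℝ :=
  O p (a (φ (p, 0))) (a (φ (p, 1))) / Real.sqrt d

theorem pt_fac (φ : Fin K × Fin 2 ≃ J) (O : Fin K → Md d) (a : J → Fin d) :
    pt φ O a = ∏ p, fac φ O p a := rfl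

/-- the point of nonzero entries -/
theorem exists_nz (hd : 2 ≤ d) (φ : Fin K × Fin 2 ≃ J) (O : Fin K → Md d) (hO : ∀ p, OD (O p)) :
    ∃ a : J → Fin d, ∀ p, fac φ O p a ≠ 0 := by
  choose r c hrc using fun p => nz hd (O p) (hO p)
  refine ⟨fun j => if (φ.symm j).2 = 0 then r (φ.symm j).1 else c (φ.symm j).1, fun p => ?_⟩
  have h0 : (if (φ.symm (φ (p, 0))).2 = 0 then r (φ.symm (φ (p, 0))).1
      else c (φ.symm (φ (p, 0))).1) = r p := by
    rw [Equiv.symm_apply_apply]
    exact if_pos rfl
  have h1 : (if (φ.symm (φ (p, 1))).2 = 0 then r (φ.symm (φ (p, 1))).1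
      else c (φ.symm (φ (p, 1))).1) = c p := by
    rw [Equiv.symm_apply_apply]
    exact if_neg (one_ne_zero)
  have h2 : O p (if (φ.symm (φ (p, 0))).2 = 0 then r (φ.symm (φ (p, 0))).1
      else c (φ.symm (φ (p, 0))).1) (if (φ.symm (φ (p, 1))).2 = 0 then r (φ.symm (φ (p, 1))).1
      else c (φ.symm (φ (p, 1))).1) ≠ 0 := by
    rw [h0, h1]
    exact hrc p
  exact div_ne_zero h2 (s3 hd)

theorem fac_upd (φ : Fin K × Fin 2 ≃ J) (O : Fin K → Md d) (p : Fin K) (a : J → Fin d) (j : J)
    (x : Fin d) (h : (φ.symm j).1 ≠ p) : fac φ O p (Function.update a j x) = fac φ O p a := by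
  have h0 : φ (p, 0) ≠ j := by
    rintro rfl
    exact h (by simp)
  have h1 : φ (p, 1) ≠ j := by
    rintro rfl
    exact h (by simp)
  unfold fac
  rw [Function.update_of_ne h0, Function.update_of_ne h1]

/-- two coordinates in different blocks -/
theorem minor_pt (φ : Fin K × Fin 2 ≃ J) (O : Fin K → Md d) (a : J → Fin d) (j j' : J)
    (hjj : j ≠ j') (h : (φ.symm j).1 ≠ (φ.symm j').1) (x y x' y' : Fin d) :
    pt φ O (Function.update (Function.update a j x) j' y) *
      pt φ O (Function.update (Function.update a j x') j' y') =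
    pt φ O (Function.update (Function.update a j x) j' y') *
      pt φ O (Function.update (Function.update a j x') j' y) := by
  simp only [pt_fac]
  rw [← Finset.prod_mul_distrib, ← Finset.prod_mul_distrib]
  refine Finset.prod_congr rfl fun p _ => ?_
  by_cases hp : (φ.symm j').1 = p
  · have h2 : (φ.symm j).1 ≠ p := by
      rw [← hp]
      exact h
    have e : ∀ x y, fac φ O p (Function.update (Function.update a j x) j' y) =
        fac φ O p (Function.update a j' y) := by
      intro x y
      rw [Function.update_comm hjj, fac_upd φ O p _ j x h2]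
    rw [e, e, e, e]
    ring
  · have e : ∀ x y, fac φ O p (Function.update (Function.update a j x) j' y) =
        fac φ O p (Function.update a j x) := fun x y => fac_upd φ O p _ j' y hp
    rw [e, e, e, e]

/-- the value after changing one block -/
theorem pt_upd (φ : Fin K × Fin 2 ≃ J) (O : Fin K → Md d) (a : J → Fin d) (q : Fin K) (x y : Fin d) :
    pt φ O (Function.update (Function.update a (φ (q, 0)) x) (φ (q, 1)) y) =
      O q x y / Real.sqrt d * ∏ p ∈ univ.erase q, fac φ O p a := by
  rw [pt_fac, ← Finset.mul_prod_erase univ _ (Finset.mem_univ q)]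
  have hne : φ (q, 0) ≠ φ (q, 1) := by
    intro h
    have := φ.injective h
    simp at this
  congr 1
  · unfold fac
    rw [Function.update_self, Function.update_of_ne hne, Function.update_self]
  · refine Finset.prod_congr rfl fun p hp => ?_
    have hpq : q ≠ p := (Finset.ne_of_mem_erase hp).symm
    rw [fac_upd φ O p _ _ y (by simpa using hpq), fac_upd φ O p _ _ x (by simpa using hpq)]

/-- the blocks agree -/
theorem blocks (hd : 2 ≤ d) (φ φ' : Fin K × Fin 2 ≃ J) (O O' : Fin K → Md d) (s : ℝ)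
    (hO : ∀ p, OD (O p)) (h : ∀ a, pt φ O a = s * pt φ' O' a) (q : Fin K) :
    (φ'.symm (φ (q, 0))).1 = (φ'.symm (φ (q, 1))).1 := by
  by_contra hne
  have hjj : φ (q, 0) ≠ φ (q, 1) := by
    intro h
    have := φ.injective h
    simp at this
  obtain ⟨a, ha⟩ := exists_nz hd φ O hO
  have hR : (∏ p ∈ univ.erase q, fac φ O p a) ≠ 0 := Finset.prod_ne_zero_iff.mpr fun p _ => ha p
  have hdet : ¬ OD (O q) := by
    apply minor_det hd
    intro x y x' y'
    have h1 := minor_pt φ' O' a _ _ hjj hne x y x' y'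
    have h2 : pt φ O (Function.update (Function.update a (φ (q, 0)) x) (φ (q, 1)) y) *
        pt φ O (Function.update (Function.update a (φ (q, 0)) x') (φ (q, 1)) y') =
        pt φ O (Function.update (Function.update a (φ (q, 0)) x) (φ (q, 1)) y') *
        pt φ O (Function.update (Function.update a (φ (q, 0)) x') (φ (q, 1)) y) := by
      rw [h, h, h, h]
      linear_combination s ^ 2 * h1
    rw [pt_upd, pt_upd, pt_upd, pt_upd] at h2
    have h3 : (O q x y * O q x' y' - O q x y' * O q x' y) *
        ((∏ p ∈ univ.erase q, fac φ O p a) / Real.sqrt d) ^ 2 = 0 := by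
      linear_combination h2
    have h4 : ((∏ p ∈ univ.erase q, fac φ O p a) / Real.sqrt d) ^ 2 ≠ 0 :=
      pow_ne_zero 2 (div_ne_zero hR (s3 hd))
    have h5 := (mul_eq_zero.mp h3).resolve_right h4
    linarith
  exact hdet (hO q)

/-- equal matchings: equal factors up to signs -/
theorem factors (hd : 2 ≤ d) (φ : Fin K × Fin 2 ≃ J) (O N : Fin K → Md d) (s : ℝ)
    (hO : ∀ p, OD (O p)) (hN : ∀ p, OD (N p)) (hNz : ∃ a, ∀ p, fac φ N p a ≠ 0)
    (hs : s ≠ 0) (h : ∀ a, pt φ O a = s * pt φ N a) :
    ∃ c : Fin K → ℝ, (∀ p, c p = 1 ∨ c p = -1) ∧ ∏ p, c p = s ∧ ∀ p, O p = c p • N p := by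
  obtain ⟨a, ha⟩ := hNz
  have hFN : pt φ N a ≠ 0 := Finset.prod_ne_zero_iff.mpr fun p _ => ha p
  have hF : pt φ O a ≠ 0 := by
    rw [h]
    exact mul_ne_zero hs hFN
  have hfO : ∀ p, fac φ O p a ≠ 0 := fun p => by
    have := Finset.prod_ne_zero_iff.mp hF
    exact this p (Finset.mem_univ p)
  have hall : ∀ q, ∃ c : ℝ, (c = 1 ∨ c = -1) ∧ O q = c • N q := by
    intro q
    have hR : (∏ p ∈ univ.erase q, fac φ O p a) ≠ 0 :=
      Finset.prod_ne_zero_iff.mpr fun p _ => hfO p
    set R := ∏ p ∈ univ.erase q, fac φ O p a with hRd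
    set R' := ∏ p ∈ univ.erase q, fac φ N p a with hRd'
    have hc : O q = (s * R' / R) • N q := by
      ext x y
      have h1 := h (Function.update (Function.update a (φ (q, 0)) x) (φ (q, 1)) y)
      rw [pt_upd, pt_upd, ← hRd, ← hRd'] at h1
      rw [Matrix.smul_apply, smul_eq_mul]
      have h3 := s3 hd
      field_simp at h1 ⊢
      linarith
    refine ⟨s * R' / R, ?_, hc⟩
    have h1 := od_apply (hO q) ⟨0, by omega⟩ ⟨0, by omega⟩
    have h2 := od_apply (hN q) ⟨0, by omega⟩ ⟨0, by omega⟩
    rw [if_pos rfl] at h1 h2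
    rw [hc] at h1
    have h3 : ∀ y, ((s * R' / R) • N q) ⟨0, by omega⟩ y * ((s * R' / R) • N q) ⟨0, by omega⟩ y =
        (s * R' / R) ^ 2 * (N q ⟨0, by omega⟩ y * N q ⟨0, by omega⟩ y) := by
      intro y
      rw [Matrix.smul_apply, smul_eq_mul]
      ring
    rw [sum_congr rfl fun y _ => h3 y, ← mul_sum, h2, mul_one] at h1
    have h4 : (s * R' / R - 1) * (s * R' / R + 1) = 0 := by linear_combination h1
    rcases mul_eq_zero.1 h4 with h5 | h5
    · exact Or.inl (by linarith)
    · exact Or.inr (by linarith)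
  choose c hc1 hc2 using hall
  refine ⟨c, hc1, ?_, hc2⟩
  have h1 := h a
  rw [pt_fac, pt_fac] at h1
  have h2 : ∀ p, fac φ O p a = c p * fac φ N p a := by
    intro p
    unfold fac
    rw [hc2 p, Matrix.smul_apply, smul_eq_mul, mul_div_assoc]
  rw [prod_congr rfl fun p _ => h2 p, prod_mul_distrib] at h1
  exact mul_right_cancel₀ hFN h1

end

theorem st_SEP : ST_SEP := by
  intro d hd K J _ _ φ φ' O O' s hO hO' hs h
  have hs0 : s ≠ 0 := by
    rcases hs with rfl | rfl <;> norm_num
  have hb := blocks hd φ φ' O O' s hO h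
  set e0 : Fin K → Fin K := fun p => (φ'.symm (φ (p, 0))).1 with he0
  set fl : Fin K → Fin 2 := fun p => (φ'.symm (φ (p, 0))).2 with hfl
  have h0 : ∀ p, φ (p, 0) = φ' (e0 p, fl p) := fun p => by
    simp [he0, hfl]
  have h1 : ∀ p, φ (p, 1) = φ' (e0 p, 1 + fl p) := fun p => by
    have h2 : φ (p, 1) = φ' (e0 p, (φ'.symm (φ (p, 1))).2) := by
      have h3 : (e0 p, (φ'.symm (φ (p, 1))).2) = φ'.symm (φ (p, 1)) := by
        rw [he0]
        exact Prod.ext (hb p) rfl
      rw [h3, Equiv.apply_symm_apply]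
    have h4 : (φ'.symm (φ (p, 1))).2 ≠ fl p := by
      intro h5
      rw [h5, ← h0 p] at h2
      have := φ.injective h2
      simp at this
    have h6 : ∀ i j : Fin 2, i ≠ j → i = 1 + j := by decide
    rw [h2, h6 _ _ h4]
  have hall : ∀ p i, φ (p, i) = φ' (e0 p, i + fl p) := by
    intro p i
    have hi : i = 0 ∨ i = 1 := by
      revert i
      decide
    rcases hi with rfl | rfl
    · rw [h0, zero_add]
    · rw [h1]
  have hinj : Function.Injective e0 := by
    intro p p' hpp
    have h2 : φ (p, fl p + fl p') = φ (p', 0) := by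
      rw [hall, hall, hpp, zero_add]
      congr 2
      have : ∀ a b : Fin 2, a + b + a = b := by decide
      exact this _ _
    have := φ.injective h2
    exact congrArg Prod.fst this
  let e : Equiv.Perm (Fin K) := Equiv.ofBijective e0 (Finite.injective_iff_bijective.mp hinj)
  set N : Fin K → Md d := fun p => if fl p = 0 then O' (e p) else (O' (e p)).transpose with hN
  have hNdet : ∀ p, OD (N p) := by
    intro p
    rw [hN]
    dsimp only
    split_ifs
    · exact hO' _
    · unfold OD
      rw [Matrix.transpose_transpose]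
      exact mul_eq_one_comm.mp (hO' _)
  have hfac : ∀ p a, fac φ N p a = fac φ' O' (e p) a := by
    intro p a
    unfold fac
    rw [h0, h1, hN]
    dsimp only
    have hi : fl p = 0 ∨ fl p = 1 := by
      generalize fl p = i
      revert i
      decide
    rcases hi with hi | hi
    · rw [if_pos hi, hi]
      rfl
    · rw [if_neg (by rw [hi]; decide), hi]
      rfl
  have hpt : ∀ a, pt φ' O' a = pt φ N a := by
    intro a
    rw [pt_fac, pt_fac, ← Equiv.prod_comp e]
    exact Finset.prod_congr rfl fun p _ => (hfac p a).symm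
  have hNz : ∃ a, ∀ p, fac φ N p a ≠ 0 := by
    obtain ⟨a, ha⟩ := exists_nz hd φ' O' hO'
    exact ⟨a, fun p => by rw [hfac]; exact ha _⟩
  obtain ⟨c, hc1, hc2, hc3⟩ := factors hd φ O N s hO hNdet hNz hs0
    (fun a => by rw [h a, hpt])
  exact ⟨e, fl, c, hall, hc1, hc2, hc3⟩

end Pool.Agent.Helper15.T6.Sep
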