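import Pool.Agent.Helper15.T6.Stmts

set_option autoImplicit false

/-!
MP_2f9829_co: module WRAP for general `d` (the list edge-colouring conjecture for one regular
graph).
-/

open Finset MeasureTheory Filter Topology

namespace Pool.Agent.Helper15.T6

namespace Wrap

/-- Two edges at a common vertex are adjacent in the line graph. -/
theorem adj_line {V : Type} {G : SimpleGraph V} {v a b : V} (ha : G.Adj v a) (hb : G.Adj v b)
    (hab : a ≠ b) : G.lineGraph.Adj ⟨s(v, a), ha⟩ ⟨s(v, b), hb⟩ := by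
  refine ⟨?_, ⟨v, ?_, ?_⟩⟩
  · intro h
    have h1 : s(v, a) = s(v, b) := Subtype.mk.inj h
    exact hab (Sym2.congr_right.1 h1)
  · simp
  · simp

/-- A proper colouring of the edges of a `d`-regular graph needs `d` colours. -/
theorem deg_le {V : Type} [Fintype V] [Nonempty V] {d g : ℕ} {G : SimpleGraph V}
    (hG : Reg d g G) {k : ℕ} (f : G.edgeSet → ℕ) (hk : ∀ e, f e < k)
    (hf : ∀ e e', G.lineGraph.Adj e e' → f e ≠ f e') : d ≤ k := by
  obtain ⟨v⟩ := ‹Nonempty V›
  have h1 : Nat.card (G.neighborSet v) = d := by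
    rw [Nat.card_coe_set_eq]; exact hG.1 v
  have h2 : Function.Injective
      (fun a : G.neighborSet v => (⟨f ⟨s(v, a.1), a.2⟩, hk _⟩ : Fin k)) := by
    intro a b hab
    by_contra hne
    have h3 : a.1 ≠ b.1 := fun h => hne (Subtype.ext h)
    exact hf _ _ (adj_line a.2 b.2 h3) (Fin.mk.inj hab)
  have h4 := Nat.card_le_card_of_injective _ h2
  rw [h1, Nat.card_eq_fintype_card, Fintype.card_fin] at h4
  exact h4

end Wrap

/-- WRAP. -/
theorem st_WRAP : ST_WRAP := by
  intro V _ _ d g G hG hC k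
  have key : d ≤ k → ∀ L : G.edgeSet → Finset ℕ, (∀ e, k ≤ (L e).card) →
      ∃ f : G.edgeSet → ℕ, (∀ e, f e ∈ L e) ∧ ∀ e e', G.lineGraph.Adj e e' → f e ≠ f e' :=
    fun h L hL => hC L fun e => h.trans (hL e)
  refine ⟨⟨?_, ?_⟩, ⟨?_, key⟩⟩
  · rintro ⟨C⟩
    exact Wrap.deg_le hG (fun e => (C e : ℕ)) (fun e => (C e).isLt)
      fun e e' h h' => C.valid h (Fin.ext h')
  · intro h
    obtain ⟨f, hf, hf'⟩ := key h (fun _ => range k) (fun _ => by simp)
    refine ⟨SimpleGraph.Coloring.mk (fun e => (⟨f e, mem_range.1 (hf e)⟩ : Fin k)) ?_⟩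
    intro e e' h1 h2
    exact hf' e e' h1 (Fin.mk.inj h2)
  · intro h
    obtain ⟨f, hf, hf'⟩ := h (fun _ => range k) (fun _ => by simp)
    exact Wrap.deg_le hG f (fun e => mem_range.1 (hf e)) hf'

end Pool.Agent.Helper15.T6
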