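import Pool.Agent.Helper15.T6.Defs
import Pool.Agent.Helper15.T5.Stmts

set_option autoImplicit false

/-!
MP_2f9829_co, all degrees `d`: statements of the combinatorial layer and of the reduction layer. Module
`X` proves `ST_X`, with the statements of the modules it uses as hypotheses. The statements HOM, LGC,
HPOL, END of `Helper15/T5/Stmts.lean` and REC, EXTM, CARD, IBP, WICK, MOM of `Helper15/T4/Stmts.lean` are
used as they are.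
-/

open Finset MeasureTheory Filter Topology

namespace Pool.Agent.Helper15.T6

open Pool.Agent.Helper15.T4 (IsPM PM cov IsMat nsq po)

/-! ### Group W: pairings and Gaussian integrals -/

open Classical in
/-- WICKR (from T4 WICK): Wick's formula for coordinates. -/
def ST_WICKR : Prop := ∀ (H ι : Type) [Fintype H] [Fintype ι] (s : Finset H) (σ : H → ι),
  (((PM s).filter (fun M => Eqn M σ)).card : ℝ) = GR (fun x : ι → ℝ => ∏ h ∈ s, x (σ h))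

open Classical in
/-- SUMX (from WICKR, T4 EXTM). -/
def ST_SUMX : Prop := ∀ (d : ℕ) (L : Type) [Fintype L] (w : (Fin d → L) → ℝ) (n : ℕ)
  (F : Finset (Sym2 (HE n d))), IsMat F →
  ∑ M ∈ (PM (univ : Finset (HE n d))).filter (fun M => F ⊆ M), XW w M = GR (Psi w F)

/-- PSI0: the integrand for `F = ∅`. -/
def ST_PSI0 : Prop := ∀ (d : ℕ) (L : Type) [Fintype L] (w : (Fin d → L) → ℝ) (n : ℕ) (x : L → ℝ),
  Psi w (∅ : Finset (Sym2 (HE n d))) x = PW w x ^ n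

/-- PSIB: bound for the integrand. -/
def ST_PSIB : Prop := ∀ (d : ℕ) (L : Type) [Fintype L] (w : (Fin d → L) → ℝ), ∃ K : ℝ, 1 ≤ K ∧
  ∀ (n : ℕ) (F : Finset (Sym2 (HE n d))) (x : L → ℝ), IsMat F →
    |Psi w F x| ≤ |PW w x| ^ (n - (tv F).card) * K ^ ((tv F).card) *
      Real.sqrt (nsq x) ^ (d * (tv F).card - 2 * F.card)

/-- PSIC (from STR, STRU): the integrand for a family of disjoint cycles. -/
def ST_PSIC : Prop := ∀ (d : ℕ) (L : Type) [Fintype L] [DecidableEq L] (w : (Fin d → L) → ℝ),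
  SymW w → ∀ p q : Fin d, p ≠ q → ∀ (n : ℕ) (I : Type) [Fintype I] (κ : I → ℕ)
  (c : (i : I) → CycD n d (κ i)) (x : L → ℝ), DisjFam c →
    Psi w (EU c) x = PW w x ^ (n - ∑ i, (κ i + 1)) * ∏ i, ((RW w p q x) ^ (κ i + 1)).trace

/-! ### Group C: cycles -/

/-- STR: structure of one cycle. -/
def ST_STR : Prop := ∀ (n d k : ℕ) (c : CycD n d k), Valid c →
  IsMat (E c) ∧ (E c).card = k + 1 ∧ tv (E c) = vs c ∧ (vs c).card = k + 1 ∧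
  ∀ h : HE n d, h ∈ cov (E c) ↔ ∃ i, h = ((c i).1, (c i).2.1) ∨ h = ((c i).1, (c i).2.2)

/-- STRU (from STR): structure of a family of disjoint cycles. -/
def ST_STRU : Prop := ∀ (n d : ℕ) (I : Type) [Fintype I] (κ : I → ℕ)
  (c : (i : I) → CycD n d (κ i)), DisjFam c → IsMat (EU c) ∧ (EU c).card = ∑ i, (κ i + 1) ∧
  (tv (EU c)).card = ∑ i, (κ i + 1) ∧ (∀ v, v ∈ tv (EU c) ↔ ∃ i, v ∈ vs (c i)) ∧
  ∀ h : HE n d, h ∈ cov (EU c) ↔ ∃ i, h ∈ cov (E (c i))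

/-- CNT: number of families of disjoint cycles. -/
def ST_CNT : Prop := ∀ (n d : ℕ) (I : Type) [Fintype I] [DecidableEq I] (κ : I → ℕ),
  {c : (i : I) → CycD n d (κ i) | DisjFam c}.ncard =
    n.descFactorial (∑ i, (κ i + 1)) * (d * (d - 1)) ^ (∑ i, (κ i + 1))

/-- FIB (from STR): a cycle has `2 (k + 1)` data. -/
def ST_FIB : Prop := ∀ (n d k : ℕ) (C : Finset (Sym2 (HE n d))), C ∈ Cyc n d k →
  {c : CycD n d k | Valid c ∧ E c = C}.ncard = 2 * (k + 1)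

/-- EXT (from STR, STRU): a further cycle that meets a family of disjoint cycles has more new pairs
than new vertices. -/
def ST_EXT : Prop := ∀ (n d : ℕ) (I : Type) [Fintype I] (κ : I → ℕ) (c : (i : I) → CycD n d (κ i))
  (k : ℕ) (c' : CycD n d k), DisjFam c → Valid c' → (∀ i, E c' ≠ E (c i)) →
  IsMat (EU c ∪ E c') → ¬ Disjoint (vs c') (tv (EU c)) →
  (tv (EU c) ∪ vs c').card + 1 ≤ (EU c ∪ E c').card

/-- CNE: number of the cycles with a given number of new vertices. -/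
def ST_CNE : Prop := ∀ d k v u : ℕ, ∃ C : ℕ, ∀ (n : ℕ) (U : Finset (Fin n)), U.card ≤ u →
  {c : CycD n d k | Valid c ∧ (U ∪ vs c).card = U.card + v}.ncard ≤ C * n ^ v

/-- ERR (from STR, STRU, CNT, EXT, CNE): intersecting cycles are negligible. -/
def ST_ERR : Prop := ∀ (d : ℕ) (W : (N : ℕ) → Finset (Sym2 (HE (2 * N) d)) → ℝ),
  (∀ N M, 0 ≤ W N M) →
  (∀ f : ℕ, ∃ C : ℝ, ∀ᶠ N in atTop, ∀ F : Finset (Sym2 (HE (2 * N) d)), IsMat F → F.card = f →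
    mass (W N) F ≤ C / (2 * (N : ℝ)) ^ f) →
  ∀ (I : Type) [Fintype I] [DecidableEq I] (κ : I → ℕ) (k : ℕ), ∃ C : ℝ, ∀ᶠ N : ℕ in atTop,
    ∑ M ∈ PM (univ : Finset (HE (2 * N) d)), W N M *
      ({p : ((i : I) → CycD (2 * N) d (κ i)) × CycD (2 * N) d k | DisjFam p.1 ∧ Valid p.2 ∧
        (∀ i, E p.2 ≠ E (p.1 i)) ∧ ¬ Disjoint (vs p.2) (tv (EU p.1)) ∧ EU p.1 ⊆ M ∧
        E p.2 ⊆ M}.ncard : ℝ) ≤ C / (N : ℝ)

/-- FM (from STR, STRU, CNT, FIB, ERR): factorial moments. -/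
def ST_FM : Prop := ∀ (d : ℕ), 1 ≤ d → ∀ (W : (N : ℕ) → Finset (Sym2 (HE (2 * N) d)) → ℝ)
  (τ : ℕ → ℝ), Good d W τ →
  ∀ (m : ℕ) (j : Fin m → ℕ), Tendsto (fun N : ℕ => ∑ M ∈ PM (univ : Finset (HE (2 * N) d)),
    W N M * ((∏ k : Fin m, (Zs m k M).descFactorial (j k) : ℕ) : ℝ)) atTop
    (𝓝 (∏ k : Fin m, (lam d k * τ k) ^ (j k)))

open Classical in
/-- POI (from FM, T4 MOM). -/
def ST_POI : Prop := ∀ (d : ℕ), 1 ≤ d → ∀ (W : (N : ℕ) → Finset (Sym2 (HE (2 * N) d)) → ℝ)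
  (τ : ℕ → ℝ), Good d W τ → (∀ k, 0 ≤ τ k) → ∀ (m : ℕ) (z : Fin m → ℕ), Tendsto (fun N : ℕ =>
    ∑ M ∈ (PM (univ : Finset (HE (2 * N) d))).filter (fun M => (fun k : Fin m => Zs m k M) = z),
      W N M) atTop (𝓝 (∏ k : Fin m, po (lam d k * τ k) (z k)))

/-- UNI (from T4 CARD, T4 EXTM, STRU): the uniform distribution. -/
def ST_UNI : Prop := ∀ (d : ℕ), 1 ≤ d →
  Good d (fun N _ => 1 / ((PM (univ : Finset (HE (2 * N) d))).card : ℝ)) (fun _ => 1)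

/-! ### Group T: graphs -/

open Classical in
/-- FIBG: a `d`-regular graph has `d! ^ n` pairings. -/
def ST_FIBG : Prop := ∀ (n d : ℕ) (G : SimpleGraph (Fin n)),
  (∀ v, Set.ncard (G.neighborSet v) = d) →
  ((PM (univ : Finset (HE n d))).filter (fun M => Gr M = G)).card = d.factorial ^ n

/-- GIR1. -/
def ST_GIR1 : Prop := ∀ (n d g : ℕ) (M : Finset (Sym2 (HE n d))),
  M ∈ PM (univ : Finset (HE n d)) → Reg d g (Gr M) → NoShort g M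

/-- GIR2. -/
def ST_GIR2 : Prop := ∀ (n d g : ℕ) (M : Finset (Sym2 (HE n d))), 3 ≤ g →
  M ∈ PM (univ : Finset (HE n d)) → NoShort g M → Reg d g (Gr M)

open Classical in
/-- POSG (from UNI, POI, ERR): a positive proportion of the pairings has no short cycle. -/
def ST_POSG : Prop := ∀ d g : ℕ, 3 ≤ d → ∃ c : ℝ, 0 < c ∧ ∀ᶠ N : ℕ in atTop,
  c * ((PM (univ : Finset (HE (2 * N) d))).card : ℝ) ≤
    (((PM (univ : Finset (HE (2 * N) d))).filter (fun M => NoShort g M)).card : ℝ)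

/-! ### Reduction layer -/

/-- XZ: the total weight of the replica model is a power of `Zc`. -/
def ST_XZ : Prop := ∀ (d : ℕ) (J : Type) [Fintype J] [DecidableEq J] (n : ℕ)
  (M : Finset (Sym2 (HE n d))), XW (wJ d J) M = ((Zc M : ℤ) : ℝ) ^ (Fintype.card J)

/-- MJ: the replica model. -/
def ST_MJ : Prop := ∀ (d : ℕ) (J : Type) [Fintype J] [DecidableEq J],
  (Even (Fintype.card J) → SymW (wJ d J)) ∧ ∀ x : (J → Fin d) → ℝ, PW (wJ d J) x = PJ J x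

/-- ZM (from XZ, MJ, SUMX, PSI0): the even moments of `Zc` as Gaussian integrals. -/
def ST_ZM : Prop := ∀ (d K n : ℕ),
  (∑ M ∈ PM (univ : Finset (HE n d)), ((Zc M : ℤ) : ℝ) ^ (2 * K)) =
    GR (fun x : (Fin K × Fin 2 → Fin d) → ℝ => PJ (Fin K × Fin 2) x ^ n)

/-- SOFT (from T5 HOM, T5 LGC): ratios of Gaussian moments. -/
def ST_SOFT : Prop := ∀ (ι : Type) [Fintype ι] (d : ℕ) (P : (ι → ℝ) → ℝ) (q : ℝ), MaxQ d P q →
  ∀ (v f : ℕ) (Φ : (ι → ℝ) → ℝ) (c : ℝ), 2 * f ≤ d * v → Continuous Φ →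
  (∀ (s : ℝ) (x : ι → ℝ), Φ (s • x) = s ^ (d * v - 2 * f) * Φ x) →
  (∀ x, nsq x = 1 → |P x| = q → Φ x = c * P x ^ v) →
  Tendsto (fun N : ℕ => GR (fun x : ι → ℝ => P x ^ (2 * N - v) * Φ x) *
    (2 * (d : ℝ) * (N : ℝ)) ^ f / GR (fun x : ι → ℝ => P x ^ (2 * N))) atTop (𝓝 c)

/-- SOFB (from T5 HOM, T5 LGC): bound for the absolute moments. -/
def ST_SOFB : Prop := ∀ (ι : Type) [Fintype ι] (d : ℕ) (P : (ι → ℝ) → ℝ) (q : ℝ), MaxQ d P q →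
  (∀ N : ℕ, 0 < GR (fun x : ι → ℝ => P x ^ (2 * N))) ∧
  ∀ v f : ℕ, 2 * f ≤ d * v → ∃ C : ℝ, ∀ᶠ N : ℕ in atTop,
  GR (fun x : ι → ℝ => |P x| ^ (2 * N - v) * Real.sqrt (nsq x) ^ (d * v - 2 * f)) *
    (2 * (d : ℝ) * (N : ℝ)) ^ f ≤ C * GR (fun x : ι → ℝ => P x ^ (2 * N))

/-- PMAXR (from the complex theorem): the maximum on real vectors. -/
def ST_PMAXR : Prop := ∀ (d : ℕ), 3 ≤ d → ∀ (J : Type) [Fintype J] [DecidableEq J] (K : ℕ),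
  Fintype.card J = 2 * K → ∀ x : (J → Fin d) → ℝ, |PJ J x| ≤ qd d ^ K * Real.sqrt (nsq x) ^ d

/-- UNIQR (from the complex theorem): the real maximisers. -/
def ST_UNIQR : Prop := ∀ (d : ℕ), 3 ≤ d → ∀ (J : Type) [Fintype J] [DecidableEq J] (K : ℕ),
  Fintype.card J = 2 * K → ∀ x : (J → Fin d) → ℝ, nsq x = 1 → |PJ J x| = qd d ^ K →
  ∃ (s : ℤˣ) (φ : Fin K × Fin 2 ≃ J) (O : Fin K → Md d), (∀ p, O p * (O p).transpose = 1) ∧
    ∀ a, x a = ((s : ℤ) : ℝ) * pt φ O a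

/-- PTV: the values at the products. -/
def ST_PTV : Prop := ∀ (d : ℕ), 1 ≤ d → ∀ (K : ℕ) (J : Type) [Fintype J] [DecidableEq J]
  (φ : Fin K × Fin 2 ≃ J) (O O' : Fin K → Md d), (∀ p, O p * (O p).transpose = 1) →
  PJ J (pt φ O) = qd d ^ K * ∏ p, (O p).det ∧ nsq (pt φ O) = 1 ∧
  ip (pt φ O) (pt φ O') = ∏ p, ((O p).transpose * O' p).trace / d

/-- TRP: the powers of the vertex matrix at the products. -/
def ST_TRP : Prop := ∀ (d : ℕ), 2 ≤ d → ∀ (K : ℕ) (J : Type) [Fintype J] [DecidableEq J]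
  (φ : Fin K × Fin 2 ≃ J) (O : Fin K → Md d), (∀ p, O p * (O p).transpose = 1) →
  ∀ p q : Fin d, p ≠ q → ∀ k : ℕ, ((RW (wJ d J) p q (pt φ O)) ^ (k + 1)).trace =
    (qd d ^ K * ∏ p, (O p).det) ^ (k + 1) * tau d k ^ K

/-- PQ (from PMAXR, UNIQR, PTV, TRP): the vertex polynomial and the vertex matrix at the maximum. -/
def ST_PQ : Prop := ∀ (d : ℕ), 3 ≤ d → ∀ K : ℕ,
  MaxQ d (fun x : (Fin K × Fin 2 → Fin d) → ℝ => PJ (Fin K × Fin 2) x) (qd d ^ K) ∧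
  ∀ x : (Fin K × Fin 2 → Fin d) → ℝ, nsq x = 1 → |PJ (Fin K × Fin 2) x| = qd d ^ K →
    ∀ p q : Fin d, p ≠ q → ∀ k : ℕ, ((RW (wJ d (Fin K × Fin 2)) p q x) ^ (k + 1)).trace =
      PJ (Fin K × Fin 2) x ^ (k + 1) * tau d k ^ K

/-! ### The tilted laws -/

/-- The law with density proportional to `Zc ^ (2 K)`. -/
noncomputable def WK (d K : ℕ) (N : ℕ) (M : Finset (Sym2 (HE (2 * N) d))) : ℝ :=
  ((Zc M : ℤ) : ℝ) ^ (2 * K) /
    ∑ M' ∈ PM (univ : Finset (HE (2 * N) d)), ((Zc M' : ℤ) : ℝ) ^ (2 * K)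

/-- TLC (from SUMX, PSIC, STRU, XZ, MJ, ZM, PQ, SOFT, SOFB): cycles of the tilted law. -/
def ST_TLC : Prop := ∀ (d : ℕ), 3 ≤ d → ∀ (K : ℕ) (I : Type) [Fintype I] [DecidableEq I] (κ : I → ℕ),
  ∃ ρ : ℕ → ℝ, Tendsto (fun N : ℕ => ρ N * (2 * (N : ℝ)) ^ (∑ i, (κ i + 1))) atTop
    (𝓝 (∏ i, tau d (κ i) ^ K / (d : ℝ) ^ (κ i + 1))) ∧
  ∀ᶠ N in atTop, ∀ c : (i : I) → CycD (2 * N) d (κ i), DisjFam c → mass (WK d K N) (EU c) = ρ N

/-- TLB (from SUMX, PSIB, STR, XZ, MJ, ZM, PQ, SOFB): masses of the tilted law. -/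
def ST_TLB : Prop := ∀ (d : ℕ), 3 ≤ d → ∀ K f : ℕ, ∃ C : ℝ, ∀ᶠ N in atTop,
  ∀ F : Finset (Sym2 (HE (2 * N) d)), IsMat F → F.card = f →
    mass (WK d K N) F ≤ C / (2 * (N : ℝ)) ^ f

/-- TL (from TLC, TLB, ZM, PQ, SOFB): the tilted law. -/
def ST_TL : Prop := ∀ (d : ℕ), 3 ≤ d → ∀ K : ℕ, Good d (WK d K) (fun k => tau d k ^ K)

/-- SERT: the cycle factors. -/
def ST_SERT : Prop := ∀ (d : ℕ), 3 ≤ d → tau d 0 = 0 ∧ (∀ k : ℕ, 1 ≤ k → 0 < tau d k) ∧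
  (∀ k : ℕ, 0 < lam d k) ∧
  ∀ K : ℕ, Summable (fun k : ℕ => lam d k * (tau d k ^ K - 1 - K * (tau d k - 1)))

/-- RATG (analytic part): the ratios of the Gaussian moments. -/
def ST_RATG : Prop := ∀ (d : ℕ), 3 ≤ d → ∀ K : ℕ, Tendsto (fun N : ℕ =>
  (GR (fun x : (Fin K × Fin 2 → Fin d) → ℝ => PJ (Fin K × Fin 2) x ^ (2 * N)) /
    GR (fun x : (Fin 0 × Fin 2 → Fin d) → ℝ => PJ (Fin 0 × Fin 2) x ^ (2 * N))) /
  (GR (fun x : (Fin 1 × Fin 2 → Fin d) → ℝ => PJ (Fin 1 × Fin 2) x ^ (2 * N)) /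
    GR (fun x : (Fin 0 × Fin 2 → Fin d) → ℝ => PJ (Fin 0 × Fin 2) x ^ (2 * N))) ^ K) atTop
  (𝓝 (mom d K))

/-- RAT (from RATG, ZM): the ratios of the moments. -/
def ST_RAT : Prop := ∀ (d : ℕ), 3 ≤ d → ∀ K : ℕ,
  Tendsto (fun N : ℕ => EZ d K N / EZ d 1 N ^ K) atTop (𝓝 (mom d K))

open Classical in
/-- CM (from TL, POI, SERT, RAT, ZM, PQ, SOFB): the moments on the cycle classes. -/
def ST_CM : Prop := ∀ (d : ℕ), 3 ≤ d → ∀ (K m : ℕ) (z : Fin m → ℕ), Tendsto (fun N : ℕ =>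
  (∑ M ∈ (PM (univ : Finset (HE (2 * N) d))).filter (fun M => (fun k : Fin m => Zs m k M) = z),
    (((Zc M : ℤ) : ℝ) ^ 2 / EZ d 1 N) ^ K) / ((PM (univ : Finset (HE (2 * N) d))).card : ℝ)) atTop
    (𝓝 (mom d K * ∏ k : Fin m, po (lam d k * tau d k ^ K) (z k)))

/-! ### Graphs -/

/-- ATL: the Alon-Tarsi link. -/
def ST_ATL : Prop := ∀ (n d : ℕ), 1 ≤ d → ∀ (M : Finset (Sym2 (HE n d))),
  M ∈ PM (univ : Finset (HE n d)) → Reg d 3 (Gr M) → Zc M ≠ 0 → ChD d (Gr M)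

/-- MAIN6 (from T5 END, CM, SERT, POSG, FIBG, GIR1, GIR2, ATL, T4 CARD): almost all `d`-regular graphs
of girth at least `g` on an even number of vertices are `d`-edge-choosable. -/
def ST_MAIN6 : Prop := ∀ d g : ℕ, 3 ≤ d → 3 ≤ g → Tendsto (fun N : ℕ =>
  (Set.ncard {G : SimpleGraph (Fin (2 * N)) | Reg d g G ∧ ChD d G} : ℝ) /
    (Set.ncard {G : SimpleGraph (Fin (2 * N)) | Reg d g G} : ℝ)) atTop (𝓝 1)

/-- WRAP: the conjecture for one graph. -/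
def ST_WRAP : Prop := ∀ (V : Type) [Fintype V] [Nonempty V] (d g : ℕ) (G : SimpleGraph V),
  Reg d g G → ChD d G → ∀ k : ℕ, (G.lineGraph.Colorable k ↔ d ≤ k) ∧
    ((∀ L : G.edgeSet → Finset ℕ, (∀ e, k ≤ (L e).card) →
      ∃ f : G.edgeSet → ℕ, (∀ e, f e ∈ L e) ∧ ∀ e e', G.lineGraph.Adj e e' → f e ≠ f e') ↔ d ≤ k)

end Pool.Agent.Helper15.T6
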