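import Pool.Agent.Helper1.T6.POSG
import Pool.Agent.Helper10.T6.COMP
import Pool.Agent.Helper10.T6.EXPD
import Pool.Agent.Helper11.T6.LACTT
import Pool.Agent.Helper11.T6.STRU
import Pool.Agent.Helper11.T6.UNI
import Pool.Agent.Helper11.T6.XZ
import Pool.Agent.Helper12.HD.REAL
import Pool.Agent.Helper15.T4.All
import Pool.Agent.Helper15.T6.ACTM
import Pool.Agent.Helper15.T6.FPI
import Pool.Agent.Helper15.T6.LOW1
import Pool.Agent.Helper15.T6.OUT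
import Pool.Agent.Helper15.T6.SEP
import Pool.Agent.Helper15.T6.WRAP
import Pool.Agent.Helper19.T6.MJ
import Pool.Agent.Helper19.T6.PSC
import Pool.Agent.Helper19.T6.SERT
import Pool.Agent.Helper20.T6.FM
import Pool.Agent.Helper20.T6.LIM0
import Pool.Agent.Helper20.T6.PSIB
import Pool.Agent.Helper22.T6.TLC
import Pool.Agent.Helper22.T6.ZM
import Pool.Agent.Helper25.T6.CM
import Pool.Agent.Helper25.T6.GINT
import Pool.Agent.Helper25.T6.POI
import Pool.Agent.Helper25.T6.SCAL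
import Pool.Agent.Helper25.T6.TL
import Pool.Agent.Helper28.T6.BRI
import Pool.Agent.Helper28.T6.LPU
import Pool.Agent.Helper32.T6.ERR
import Pool.Agent.Helper32.T6.LAPF
import Pool.Agent.Helper32.T6.LOC
import Pool.Agent.Helper36.T5.END
import Pool.Agent.Helper36.T5.HPOL
import Pool.Agent.Helper40.HD.PIV
import Pool.Agent.Helper48.T6.ATL
import Pool.Agent.Helper48.T6.GIR2
import Pool.Agent.Helper48.T6.PSI0
import Pool.Agent.Helper49.T6.EXT
import Pool.Agent.Helper5.HD.DET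
import Pool.Agent.Helper5.T6.CNE
import Pool.Agent.Helper5.T6.CNT
import Pool.Agent.Helper5.T6.FIB
import Pool.Agent.Helper5.T6.SUMX
import Pool.Agent.Helper53.HD.EQ2
import Pool.Agent.Helper53.T6.LNEAR
import Pool.Agent.Helper53.T6.LPTV
import Pool.Agent.Helper53.T6.PTV
import Pool.Agent.Helper54.T6.PERMT
import Pool.Agent.Helper59.T6.FIBG
import Pool.Agent.Helper59.T6.SOFB
import Pool.Agent.Helper59.T6.SOFT
import Pool.Agent.Helper59.T6.STR
import Pool.Agent.Helper61.T6.WICKR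
import Pool.Agent.Helper66.HD.LEM
import Pool.Agent.Helper66.T6.MOVE
import Pool.Agent.Helper66.T6.PRD
import Pool.Agent.Helper71.T6.PSIC
import Pool.Agent.Helper72.T5.LGC
import Pool.Agent.Helper72.T6.EBO
import Pool.Agent.Helper72.T6.EBT
import Pool.Agent.Helper72.T6.HES
import Pool.Agent.Helper72.T6.TANP
import Pool.Agent.Helper73.HD.MAXP
import Pool.Agent.Helper73.HD.UNIQ
import Pool.Agent.Helper73.HD.UNT
import Pool.Agent.Helper76.T6.AVI
import Pool.Agent.Helper76.T6.MAIN6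
import Pool.Agent.Helper76.T6.TLB
import Pool.Agent.Helper78.T6.LIM
import Pool.Agent.Helper78.T6.PQ
import Pool.Agent.Helper8.T6.PSINV
import Pool.Agent.Helper85.HAD.WIG
import Pool.Agent.Helper85.T6.TRP
import Pool.Agent.Helper87.HD.AD
import Pool.Agent.Helper87.HD.EQ
import Pool.Agent.Helper87.HD.ORT
import Pool.Agent.Helper91.T6.BLKN
import Pool.Agent.Helper91.T6.TOT
import Pool.Agent.Helper98.T6.GIR1
import Pool.Agent.Helper98.T6.LOW2
import Pool.Agent.Helper99.T5.HOM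

set_option autoImplicit false

/-!
MP_2f9829_co: assembly of the modules.
-/

namespace Pool.Agent.Helper15.T6.All

theorem all_K_CARD : Pool.Agent.Helper15.T4.ST_CARD :=
  Pool.Agent.Helper15.T4.All.all_CARD

theorem all_K_EXTM : Pool.Agent.Helper15.T4.ST_EXTM :=
  Pool.Agent.Helper15.T4.All.all_EXTM

theorem all_STR : Pool.Agent.Helper15.T6.ST_STR :=
  Pool.Agent.Helper59.T6.STR

theorem all_STRU : Pool.Agent.Helper15.T6.ST_STRU :=
  Pool.Agent.Helper11.T6.st_STRU all_STR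

theorem all_UNI : Pool.Agent.Helper15.T6.ST_UNI :=
  Pool.Agent.Helper11.T6.st_UNI all_K_CARD all_K_EXTM all_STRU

theorem all_CNT : Pool.Agent.Helper15.T6.ST_CNT :=
  Pool.Agent.Helper5.T6.st_CNT

theorem all_FIB : Pool.Agent.Helper15.T6.ST_FIB :=
  Pool.Agent.Helper5.T6.st_FIB all_STR

theorem all_EXT : Pool.Agent.Helper15.T6.ST_EXT :=
  Pool.Agent.Helper49.T6.EXT all_STR all_STRU

theorem all_CNE : Pool.Agent.Helper15.T6.ST_CNE :=
  Pool.Agent.Helper5.T6.st_CNE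

theorem all_ERR : Pool.Agent.Helper15.T6.ST_ERR :=
  Pool.Agent.Helper32.T6.ERR all_STR all_STRU all_CNT all_EXT all_CNE

theorem all_FM : Pool.Agent.Helper15.T6.ST_FM :=
  Pool.Agent.Helper20.T6.st_FM all_STR all_STRU all_CNT all_FIB all_ERR

theorem all_K_MOM : Pool.Agent.Helper15.T4.ST_MOM :=
  Pool.Agent.Helper15.T4.All.all_MOM

theorem all_POI : Pool.Agent.Helper15.T6.ST_POI :=
  Pool.Agent.Helper15.T6.st_POI all_FM all_K_MOM

theorem all_POSG : Pool.Agent.Helper15.T6.ST_POSG :=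
  Pool.Agent.Helper1.T6.st_POSG all_UNI all_POI all_ERR

theorem all_FIBG : Pool.Agent.Helper15.T6.ST_FIBG :=
  Pool.Agent.Helper59.T6.FIBG

theorem all_GIR1 : Pool.Agent.Helper15.T6.ST_GIR1 :=
  Pool.Agent.Helper98.T6.st_GIR1

theorem all_GIR2 : Pool.Agent.Helper15.T6.ST_GIR2 :=
  Pool.Agent.Helper48.T6.st_GIR2

theorem all_SERT : Pool.Agent.Helper15.T6.ST_SERT :=
  Pool.Agent.Helper19.T6.st_SERT

theorem all_WICKR : Pool.Agent.Helper15.T6.ST_WICKR :=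
  Pool.Agent.Helper61.T6.st_WICKR

theorem all_SUMX : Pool.Agent.Helper15.T6.ST_SUMX :=
  Pool.Agent.Helper5.T6.st_SUMX all_WICKR all_K_EXTM

theorem all_PSIC : Pool.Agent.Helper15.T6.ST_PSIC :=
  Pool.Agent.Helper71.T6.PSIC all_STR all_STRU

theorem all_XZ : Pool.Agent.Helper15.T6.ST_XZ :=
  Pool.Agent.Helper11.T6.st_XZ

theorem all_MJ : Pool.Agent.Helper15.T6.ST_MJ :=
  Pool.Agent.Helper19.T6.st_MJ

theorem all_PSI0 : Pool.Agent.Helper15.T6.ST_PSI0 :=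
  Pool.Agent.Helper48.T6.st_PSI0

theorem all_ZM : Pool.Agent.Helper15.T6.ST_ZM :=
  Pool.Agent.Helper22.T6.st_ZM all_XZ all_MJ all_SUMX all_PSI0

theorem all_H_LEM : HD.ST_LEM :=
  HD.st_LEM

theorem all_H_DET : HD.ST_DET :=
  HD.st_DET

theorem all_H_EXP : HD.ST_EXP :=
  HD.st_EXP

theorem all_H_EXM : HD.ST_EXM :=
  HD.Uni.exm

theorem all_H_ORT : HD.ST_ORT :=
  HD.st_ORT all_H_DET

theorem all_H_UNT : HD.ST_UNT :=
  HD.st_UNT'

theorem all_H_PIV : HD.ST_PIV :=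
  HD.st_PIV all_H_DET all_H_UNT all_H_ORT

theorem all_H_AD : HD.ST_AD :=
  HD.st_AD all_H_LEM all_H_DET all_H_EXP all_H_EXM all_H_ORT all_H_PIV

theorem all_H_MAXP : HD.ST_MAXP :=
  HD.st_MAXP' all_H_AD

theorem all_PMAXR : Pool.Agent.Helper15.T6.ST_PMAXR :=
  Pool.Agent.Helper28.T6.st_PMAXR all_H_MAXP

theorem all_H_EQ : HD.ST_EQ :=
  HD.st_EQ all_H_LEM all_H_DET all_H_EXP all_H_ORT all_H_PIV all_H_AD

theorem all_H_EQ2 : HD.ST_EQ2 :=
  HD.st_EQ2 all_H_DET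

theorem all_H_WIG : HD.ST_WIG :=
  HD.st_WIG

theorem all_H_UNIQ : HD.ST_UNIQ :=
  HD.st_UNIQ all_H_EQ all_H_EQ2 all_H_MAXP all_H_WIG

theorem all_H_REAL : HD.ST_REAL :=
  Pool.Agent.Helper12.HDReal.st_REAL all_H_UNIQ

theorem all_UNIQR : Pool.Agent.Helper15.T6.ST_UNIQR :=
  Pool.Agent.Helper28.T6.st_UNIQR all_H_REAL

theorem all_PTV : Pool.Agent.Helper15.T6.ST_PTV :=
  Pool.Agent.Helper53.T6.st_PTV

theorem all_TRP : Pool.Agent.Helper15.T6.ST_TRP :=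
  Pool.Agent.Helper85.T6.st_TRP

theorem all_PQ : Pool.Agent.Helper15.T6.ST_PQ :=
  Pool.Agent.Helper78.T6.st_PQ all_PMAXR all_UNIQR all_PTV all_TRP

theorem all_F_HOM : Pool.Agent.Helper15.T5.ST_HOM :=
  Pool.Agent.Helper99.T5.st_HOM

theorem all_F_LGC : Pool.Agent.Helper15.T5.ST_LGC :=
  T5LGC.st_LGC

theorem all_SOFT : Pool.Agent.Helper15.T6.ST_SOFT :=
  Pool.Agent.Helper59.T6.st_SOFT all_F_HOM all_F_LGC

theorem all_TLC : Pool.Agent.Helper15.T6.ST_TLC :=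
  Pool.Agent.Helper22.T6.st_TLC all_SUMX all_PSIC all_STRU all_XZ all_MJ all_ZM all_PQ all_SOFT

theorem all_PSIB : Pool.Agent.Helper15.T6.ST_PSIB :=
  Pool.Agent.Helper20.T6.st_PSIB

theorem all_SOFB : Pool.Agent.Helper15.T6.ST_SOFB :=
  Pool.Agent.Helper59.T6.st_SOFB all_F_HOM all_F_LGC

theorem all_TLB : Pool.Agent.Helper15.T6.ST_TLB :=
  Pool.Agent.Helper76.T6.TLB.st_TLB all_SUMX all_PSIB all_XZ all_MJ all_ZM all_PQ all_SOFB

theorem all_TL : Pool.Agent.Helper15.T6.ST_TL :=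
  Pool.Agent.Helper15.T6.st_TL all_TLC all_TLB all_ZM all_PQ all_SOFB

theorem all_L_AVI : Pool.Agent.Helper46.T6.ST_AVI :=
  Pool.Agent.Helper76.T6.st_AVI

theorem all_L_ACTM : Pool.Agent.Helper46.T6.ST_ACTM :=
  Pool.Agent.Helper15.T6.Actm.st_ACTM

theorem all_L_PSINV : Pool.Agent.Helper46.T6.ST_PSINV :=
  Pool.Agent.Helper8.T6.st_PSINV all_L_AVI all_L_ACTM

theorem all_L_PSC : Pool.Agent.Helper46.T6.ST_PSC :=
  Pool.Agent.Helper46.T6.st_PSC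

theorem all_L_ACTT : Pool.Agent.Helper46.T6.ST_ACTT :=
  Pool.Agent.Helper11.T6L.st_ACTT

theorem all_L_PERMT : Pool.Agent.Helper46.T6.ST_PERMT :=
  Pool.Agent.Helper54.T6.st_PERMT

theorem all_L_ACTV : Pool.Agent.Helper46.T6.ST_ACTV :=
  Pool.Agent.Helper11.T6L.st_ACTV

theorem all_L_PMAXR : Pool.Agent.Helper46.T6.ST_PMAXR :=
  Pool.Agent.Helper28.T6.st_LPMAXR all_H_MAXP

theorem all_L_FPI : Pool.Agent.Helper46.T6.ST_FPI :=
  Pool.Agent.Helper15.T6.Fpi.st_FPI all_L_PSINV all_L_PSC all_L_ACTT all_L_ACTM all_L_PERMT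
    all_L_ACTV all_L_PMAXR

theorem all_L_LOC : Pool.Agent.Helper46.T6.ST_LOC :=
  Pool.Agent.Helper32.T6.st_LOC

theorem all_L_DBL : Pool.Agent.Helper46.T6.ST_DBL :=
  Pool.Agent.Helper76.T6.st_DBL

theorem all_L_LOW1 : Pool.Agent.Helper46.T6.ST_LOW1 :=
  Pool.Agent.Helper15.T6.Low1.st_LOW1 all_L_LOC all_L_DBL

theorem all_L_UNIQ : Pool.Agent.Helper46.T6.ST_UNIQ :=
  Pool.Agent.Helper28.T6.st_LUNIQ all_H_REAL

theorem all_L_PTV : Pool.Agent.Helper46.T6.ST_PTV :=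
  Pool.Agent.Helper53.T6L.st_PTV

theorem all_L_OUT : Pool.Agent.Helper46.T6.ST_OUT :=
  Pool.Agent.Helper15.T6.Out.st_OUT all_L_LOW1 all_L_PSINV all_L_ACTM all_L_PMAXR all_L_UNIQ
    all_L_PTV all_L_PSC

theorem all_L_TANP : Pool.Agent.Helper46.T6.ST_TANP :=
  T6H72.st_TANP'

theorem all_L_NEAR : Pool.Agent.Helper46.T6.ST_NEAR :=
  Pool.Agent.Helper53.T6L.st_NEAR all_L_TANP all_L_LOC

theorem all_L_DISTP : Pool.Agent.Helper46.T6.ST_DISTP :=
  Pool.Agent.Helper53.T6L.st_DISTP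

theorem all_L_SEP : Pool.Agent.Helper46.T6.ST_SEP :=
  Pool.Agent.Helper15.T6.Sep.st_SEP

theorem all_L_COMP : Pool.Agent.Helper46.T6.ST_COMP :=
  Pool.Agent.Helper10.T6.st_COMP all_L_SEP

theorem all_L_LIM0 : Pool.Agent.Helper46.T6.ST_LIM0 :=
  Pool.Agent.Helper20.T6.st_LIM0 all_L_NEAR all_L_DISTP all_L_COMP

theorem all_L_EXPB : Pool.Agent.Helper46.T6.ST_EXPB :=
  Pool.Agent.Helper32.T6.st_EXPB

theorem all_L_MOVE : Pool.Agent.Helper46.T6.ST_MOVE :=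
  Pool.Agent.Helper66.T6.st_MOVE all_L_TANP all_L_LOC all_L_EXPB all_L_ACTM

theorem all_L_BLKN : Pool.Agent.Helper46.T6.ST_BLKN :=
  Pool.Agent.Helper46.T6.st_BLKN

theorem all_L_TIGHT : Pool.Agent.Helper46.T6.ST_TIGHT :=
  Pool.Agent.Helper76.T6.st_TIGHT

theorem all_L_LIM : Pool.Agent.Helper46.T6.ST_LIM :=
  Pool.Agent.Helper78.T6.st_LIM all_L_LIM0 all_L_MOVE all_L_PSINV all_L_COMP all_L_BLKN all_L_AVI
    all_L_TIGHT

theorem all_L_LOW2 : Pool.Agent.Helper46.T6.ST_LOW2 :=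
  Pool.Agent.Helper98.T6.st_LOW2 all_L_MOVE all_L_NEAR all_L_PSINV all_L_LOC all_L_TIGHT

theorem all_L_EBT : Pool.Agent.Helper46.T6.ST_EBT :=
  T6H72.st_EBT

theorem all_L_EXPD : Pool.Agent.Helper46.T6.ST_EXPD :=
  Pool.Agent.Helper10.T6.st_EXPD all_L_EBT

theorem all_L_HES : Pool.Agent.Helper46.T6.ST_HES :=
  T6H72.st_HES'

theorem all_L_LAPF : Pool.Agent.Helper46.T6.ST_LAPF :=
  Pool.Agent.Helper32.T6.Lap.st_LAPF all_L_OUT all_L_LIM all_L_LOW2 all_L_EXPD all_L_HES all_L_PSC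
    all_L_TIGHT

theorem all_L_EBO : Pool.Agent.Helper46.T6.ST_EBO :=
  T6H72.st_EBO

theorem all_L_GINT : Pool.Agent.Helper46.T6.ST_GINT :=
  Pool.Agent.Helper25.T6G.st_GINT all_L_HES all_L_EBO

theorem all_L_PRD : Pool.Agent.Helper46.T6.ST_PRD :=
  Pool.Agent.Helper66.T6.PRD.st_PRD

theorem all_L_SCAL : Pool.Agent.Helper46.T6.ST_SCAL :=
  Pool.Agent.Helper25.T6G.st_SCAL

theorem all_L_TOT : Pool.Agent.Helper46.T6.ST_TOT :=
  Pool.Agent.Helper46.T6.st_TOT all_L_FPI all_L_LAPF all_L_GINT all_L_PRD all_L_SCAL all_L_TIGHT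

theorem all_RATG : Pool.Agent.Helper15.T6.ST_RATG :=
  Pool.Agent.Helper46.T6.st_RATG all_L_TOT

theorem all_RAT : Pool.Agent.Helper15.T6.ST_RAT :=
  Pool.Agent.Helper22.T6.st_RAT all_RATG all_ZM

theorem all_CM : Pool.Agent.Helper15.T6.ST_CM :=
  Pool.Agent.Helper15.T6.st_CM all_TL all_POI all_SERT all_RAT

theorem all_F_HPOL : Pool.Agent.Helper15.T5.ST_HPOL :=
  Pool.Agent.Helper36.T5.st_HPOL

theorem all_F_END : Pool.Agent.Helper15.T5.ST_END :=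
  Pool.Agent.Helper36.T5.st_END all_F_HPOL

theorem all_ATL : Pool.Agent.Helper15.T6.ST_ATL :=
  Pool.Agent.Helper48.T6.st_ATL

theorem all_MAIN6 : Pool.Agent.Helper15.T6.ST_MAIN6 :=
  Pool.Agent.Helper76.T6.MAIN6.st_MAIN6 all_K_CARD all_POSG all_FIBG all_GIR1 all_GIR2 all_SERT
    all_CM all_F_END all_ATL

theorem all_WRAP : Pool.Agent.Helper15.T6.ST_WRAP :=
  Pool.Agent.Helper15.T6.st_WRAP

end Pool.Agent.Helper15.T6.All
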