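import Pool.Agent.Helper15.T4.Defs

set_option autoImplicit false

/-!
MP_2f9829_co: almost all `d`-regular graphs on an even number of vertices are `d`-edge-choosable.
Definitions: pairings, cycles, label models (real, with the identity matrix on the edges), the signed
number of edge colourings, the replica form.
-/

open Finset MeasureTheory Filter Topology

namespace Pool.Agent.Helper15.T6

open Pool.Agent.Helper15.T4 (IsPM PM cov IsMat nsq po)

/-! ### Pairings -/

/-- Half-edges of the vertices `Fin n` of a `d`-regular graph. -/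
abbrev HE (n d : ℕ) : Type := Fin n × Fin d

open Classical in
/-- The vertices touched by a set of pairs of half-edges. -/
noncomputable def tv {n d : ℕ} (F : Finset (Sym2 (HE n d))) : Finset (Fin n) :=
  (cov F).image Prod.fst

open Classical in
/-- Total weight of the perfect matchings that contain `F`. -/
noncomputable def mass {n d : ℕ} (W : Finset (Sym2 (HE n d)) → ℝ) (F : Finset (Sym2 (HE n d))) : ℝ :=
  ∑ M ∈ (PM (univ : Finset (HE n d))).filter (fun M => F ⊆ M), W M

/-! ### Cycles -/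

/-- Data of a rooted and oriented cycle of length `k + 1`: vertices `(c i).1`, the cycle arrives at the
vertex `(c i).1` through the half-edge `(c i).2.1` and leaves through the half-edge `(c i).2.2`. -/
abbrev CycD (n d k : ℕ) : Type := Fin (k + 1) → Fin n × Fin d × Fin d

/-- The vertices are distinct and the cycle arrives and leaves through different half-edges. -/
def Valid {n d k : ℕ} (c : CycD n d k) : Prop :=
  Function.Injective (fun i => (c i).1) ∧ ∀ i, (c i).2.1 ≠ (c i).2.2

open Classical in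
/-- The pairs of the cycle. -/
noncomputable def E {n d k : ℕ} (c : CycD n d k) : Finset (Sym2 (HE n d)) :=
  univ.image (fun i => s(((c i).1, (c i).2.2), ((c (i + 1)).1, (c (i + 1)).2.1)))

open Classical in
/-- The vertices of the cycle. -/
noncomputable def vs {n d k : ℕ} (c : CycD n d k) : Finset (Fin n) := univ.image (fun i => (c i).1)

open Classical in
/-- The cycles of length `k + 1` of the complete structure, as sets of pairs. -/
noncomputable def Cyc (n d k : ℕ) : Finset (Finset (Sym2 (HE n d))) :=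
  (univ.filter (fun c : CycD n d k => Valid c)).image E

open Classical in
/-- Number of the cycles of length `k + 1` of `M` that meet no other cycle of `M` of length at most
`m`. -/
noncomputable def Zs {n d : ℕ} (m k : ℕ) (M : Finset (Sym2 (HE n d))) : ℕ :=
  ((Cyc n d k).filter (fun C => C ⊆ M ∧ ∀ k' < m, ∀ C' ∈ Cyc n d k', C' ⊆ M → C' ≠ C →
    Disjoint (tv C) (tv C'))).card

open Classical in
/-- The union of the pairs of a family of cycles. -/
noncomputable def EU {n d : ℕ} {I : Type} [Fintype I] {κ : I → ℕ} (c : (i : I) → CycD n d (κ i)) :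
    Finset (Sym2 (HE n d)) := univ.biUnion (fun i => E (c i))

/-- A family of valid cycles with pairwise disjoint vertex sets. -/
def DisjFam {n d : ℕ} {I : Type} {κ : I → ℕ} (c : (i : I) → CycD n d (κ i)) : Prop :=
  (∀ i, Valid (c i)) ∧ ∀ i j, i ≠ j → Disjoint (vs (c i)) (vs (c j))

/-- A sequence of probability distributions on the pairings of `2 N` vertices for which the short
cycles are asymptotically independent Poisson variables with parameters `lam d k * τ k`. -/
structure Good (d : ℕ) (W : (N : ℕ) → Finset (Sym2 (HE (2 * N) d)) → ℝ) (τ : ℕ → ℝ) : Prop where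
  nonneg : ∀ N M, 0 ≤ W N M
  one : ∀ᶠ N in atTop, ∑ M ∈ PM (univ : Finset (HE (2 * N) d)), W N M = 1
  cyc : ∀ (I : Type) [Fintype I] [DecidableEq I] (κ : I → ℕ), ∃ ρ : ℕ → ℝ,
    Tendsto (fun N : ℕ => ρ N * (2 * (N : ℝ)) ^ (∑ i, (κ i + 1))) atTop
      (𝓝 (∏ i, τ (κ i) / (d : ℝ) ^ (κ i + 1))) ∧
    ∀ᶠ N in atTop, ∀ c : (i : I) → CycD (2 * N) d (κ i), DisjFam c → mass (W N) (EU c) = ρ N
  bd : ∀ f : ℕ, ∃ C : ℝ, ∀ᶠ N in atTop, ∀ F : Finset (Sym2 (HE (2 * N) d)), IsMat F →
    F.card = f → mass (W N) F ≤ C / (2 * (N : ℝ)) ^ f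

/-- `lam d k` is the Poisson parameter of the cycles of length `k + 1`. -/
noncomputable def lam (d k : ℕ) : ℝ := ((d : ℝ) - 1) ^ (k + 1) / (2 * ((k : ℝ) + 1))

/-! ### Label models -/

/-- The labels of the two half-edges of each pair are equal. -/
def Eqn {H L : Type} (F : Finset (Sym2 H)) (σ : H → L) : Prop := ∀ h h' : H, s(h, h') ∈ F → σ h = σ h'

/-- Expectation of `φ` at a standard Gaussian vector. -/
noncomputable def GR {ι : Type} [Fintype ι] (φ : (ι → ℝ) → ℝ) : ℝ :=
  (2 * Real.pi) ^ (-(Fintype.card ι : ℝ) / 2) * ∫ x : ι → ℝ, φ x * Real.exp (-(nsq x) / 2)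

section Model

variable {d : ℕ} {L : Type} [Fintype L] (w : (Fin d → L) → ℝ)

/-- The vertex polynomial. -/
noncomputable def PW (x : L → ℝ) : ℝ := ∑ a : Fin d → L, w a * ∏ i, x (a i)

open Classical in
/-- The vertex matrix for the half-edges `p`, `q`: all other legs are closed by `x`. -/
noncomputable def RW (p q : Fin d) (x : L → ℝ) : Matrix L L ℝ := fun a b =>
  ∑ f ∈ univ.filter (fun f : Fin d → L => f p = a ∧ f q = b),
    w f * ∏ i ∈ (univ.erase p).erase q, x (f i)

open Classical in
/-- The total weight of the labelings of the pairing `M`. -/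
noncomputable def XW {n : ℕ} (M : Finset (Sym2 (HE n d))) : ℝ :=
  ∑ σ ∈ univ.filter (fun σ : HE n d → L => Eqn M σ), ∏ v, w (fun i => σ (v, i))

open Classical in
/-- The integrand for the pairings containing `F`. -/
noncomputable def Psi {n : ℕ} (F : Finset (Sym2 (HE n d))) (x : L → ℝ) : ℝ :=
  ∑ σ ∈ univ.filter (fun σ : HE n d → L => Eqn F σ),
    (∏ v, w (fun i => σ (v, i))) * ∏ h ∈ (cov F)ᶜ, x (σ h)

/-- The weights are symmetric. -/
def SymW : Prop := ∀ (π : Equiv.Perm (Fin d)) (a : Fin d → L), w (fun i => a (π i)) = w a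

end Model

/-- The hypotheses of the soft Laplace method: a form of degree `d` with maximum `q` on the unit
sphere. -/
structure MaxQ {ι : Type} [Fintype ι] (d : ℕ) (P : (ι → ℝ) → ℝ) (q : ℝ) : Prop where
  cont : Continuous P
  hom : ∀ (s : ℝ) (x : ι → ℝ), P (s • x) = s ^ d * P x
  q0 : 0 < q
  le : ∀ x, |P x| ≤ q * Real.sqrt (nsq x) ^ d
  att : ∃ x, nsq x = 1 ∧ |P x| = q

/-! ### Edge colourings -/

/-- The sign of a map `Fin d → Fin d`: `0` if it is not bijective. -/
def epsd {d : ℕ} (f : Fin d → Fin d) : ℤ :=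
  ∑ π : Equiv.Perm (Fin d), if f = ⇑π then ((Equiv.Perm.sign π : ℤˣ) : ℤ) else 0

open Classical in
/-- The signed number of the edge colourings with `d` colours of a pairing. -/
noncomputable def Zc {n d : ℕ} (M : Finset (Sym2 (HE n d))) : ℤ :=
  ∑ σ ∈ univ.filter (fun σ : HE n d → Fin d => Eqn M σ), ∏ v, epsd (fun i => σ (v, i))

/-- The weights of the model of the replicas `J`: labels `J → Fin d`. -/
noncomputable def wJ (d : ℕ) (J : Type) [Fintype J] (a : Fin d → J → Fin d) : ℝ :=
  ∏ j, ((epsd (fun i => a i j) : ℤ) : ℝ)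

/-- The `d`-linear form of the replicas `J`. -/
def TJ {R : Type} [CommRing R] {d : ℕ} (J : Type) [Fintype J] [DecidableEq J]
    (x : Fin d → (J → Fin d) → R) : R :=
  ∑ π : J → Equiv.Perm (Fin d), (∏ j, ((((Equiv.Perm.sign (π j) : ℤˣ) : ℤ)) : R)) *
    ∏ i : Fin d, x i (fun j => π j i)

/-- The form of degree `d` of the replicas `J`. -/
def PJ {R : Type} [CommRing R] {d : ℕ} (J : Type) [Fintype J] [DecidableEq J]
    (x : (J → Fin d) → R) : R := TJ J (fun _ => x)

/-- The maximum for one pair of replicas. -/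
noncomputable def qd (d : ℕ) : ℝ := (d.factorial : ℝ) / Real.sqrt d ^ d

/-- Real square matrices. -/
abbrev Md (d : ℕ) : Type := Matrix (Fin d) (Fin d) ℝ

/-- Product over the pairs `{φ (p, 0), φ (p, 1)}` of replicas of the unit vectors `O p / √d`. -/
noncomputable def pt {d : ℕ} {J : Type} {K : ℕ} (φ : Fin K × Fin 2 ≃ J) (O : Fin K → Md d) :
    (J → Fin d) → ℝ :=
  fun a => ∏ p, O p (a (φ (p, 0))) (a (φ (p, 1))) / Real.sqrt d

/-- The peak. -/
noncomputable def u0 (d K : ℕ) : (Fin K × Fin 2 → Fin d) → ℝ := pt (Equiv.refl _) (fun _ => 1)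

/-- The action of matrices on the replicas. -/
def act {R : Type} [CommRing R] {d : ℕ} {J : Type} [Fintype J] [DecidableEq J]
    (A : J → Matrix (Fin d) (Fin d) R) (x : (J → Fin d) → R) : (J → Fin d) → R :=
  fun a => ∑ b : J → Fin d, (∏ j, A j (a j) (b j)) * x b

/-- Scalar product. -/
def ip {ι : Type} [Fintype ι] (x y : ι → ℝ) : ℝ := ∑ i, x i * y i

/-- `tau d k` is the cycle factor of the cycles of length `k + 1` for one pair of replicas. -/
noncomputable def tau (d k : ℕ) : ℝ :=
  1 + ((d : ℝ) * (d - 1) / 2 + (-1) ^ (k + 1) * ((d : ℝ) * (d + 1) / 2 - 1)) / ((d : ℝ) - 1) ^ (k + 1)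

/-- The even moments of a standard Gaussian variable. -/
noncomputable def df (K : ℕ) : ℝ := ∏ i ∈ range K, (2 * (i : ℝ) + 1)

/-- The limit moments. -/
noncomputable def mom (d K : ℕ) : ℝ :=
  df K * Real.exp (∑' k : ℕ, lam d k * (tau d k ^ K - 1 - K * (tau d k - 1)))

/-- The mean of `Zc ^ (2 K)` over the pairings of `2 N` vertices. -/
noncomputable def EZ (d K N : ℕ) : ℝ :=
  (∑ M ∈ PM (univ : Finset (HE (2 * N) d)), ((Zc M : ℤ) : ℝ) ^ (2 * K)) /
    ((PM (univ : Finset (HE (2 * N) d))).card : ℝ)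

/-! ### Graphs -/

/-- The simple graph of a pairing. -/
def Gr {n d : ℕ} (M : Finset (Sym2 (HE n d))) : SimpleGraph (Fin n) where
  Adj v w := v ≠ w ∧ ∃ a b, s((v, a), (w, b)) ∈ M
  symm := ⟨fun v w h => ⟨h.1.symm, by obtain ⟨a, b, hab⟩ := h.2; exact ⟨b, a, by rwa [Sym2.eq_swap]⟩⟩⟩
  loopless := ⟨fun v h => h.1 rfl⟩

/-- `d`-regular, and all cycles have length at least `g`. -/
def Reg {V : Type} [Fintype V] (d g : ℕ) (G : SimpleGraph V) : Prop :=
  (∀ v : V, Set.ncard (G.neighborSet v) = d) ∧ ∀ (u : V) (p : G.Walk u u), p.IsCycle → g ≤ p.length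

/-- Edge-choosability with lists of `d` colours. -/
def ChD {V : Type} (d : ℕ) (G : SimpleGraph V) : Prop :=
  ∀ L : G.edgeSet → Finset ℕ, (∀ e, d ≤ (L e).card) →
    ∃ f : G.edgeSet → ℕ, (∀ e, f e ∈ L e) ∧ ∀ e e', G.lineGraph.Adj e e' → f e ≠ f e'

/-- Pairings without short cycles. -/
def NoShort {n d : ℕ} (g : ℕ) (M : Finset (Sym2 (HE n d))) : Prop :=
  ∀ k, k + 1 < g → ∀ c : CycD n d k, Valid c → ¬ E c ⊆ M

end Pool.Agent.Helper15.T6
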