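import Pool.Agent.Helper8.T6.PSINV

set_option autoImplicit false

/-!
MP_2f9829_co, general `d`: module OUT (the region far from the peak).
-/

open Finset MeasureTheory Filter Topology

namespace Pool.Agent.Helper15.T6.Out

open Pool.Agent.Helper15.T4 (nsq)
open Pool.Agent.Helper15.T6
open Pool.Agent.Helper46.T6
open Pool.Agent.Helper8.T6

theorem nn {ι : Type} [Fintype ι] (x : ι → ℝ) : 0 ≤ nsq x := sum_nonneg fun _ _ => sq_nonneg _

theorem cont_nsq {ι : Type} [Fintype ι] : Continuous (fun x : ι → ℝ => nsq x) := by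
  unfold nsq; fun_prop

theorem qd_pos {d : ℕ} (hd : 1 ≤ d) : 0 < qd d := by
  unfold qd
  have h1 : (0 : ℝ) < (d.factorial : ℝ) := by exact_mod_cast d.factorial_pos
  have h2 : (0 : ℝ) < Real.sqrt d := Real.sqrt_pos.2 (by exact_mod_cast hd)
  positivity

theorem cont_PJ (d K : ℕ) :
    Continuous (fun y : (Fin K × Fin 2 → Fin d) → ℝ => PJ (Fin K × Fin 2) y) := by
  unfold PJ TJ
  fun_prop

theorem cont_fvd (d K : ℕ) : Continuous (fvd d K) := by
  unfold fvd
  have h1 := cont_PJ d K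
  have h2 := cont_nsq (ι := Fin K × Fin 2 → Fin d)
  fun_prop

theorem G_le (s : ℝ) : s * Real.exp (1 - s) ≤ 1 := by
  have h := Real.add_one_le_exp (s - 1)
  have h1 : s ≤ Real.exp (s - 1) := by linarith
  have h2 : Real.exp (s - 1) * Real.exp (1 - s) = 1 := by
    rw [← Real.exp_add]; simp
  calc s * Real.exp (1 - s) ≤ Real.exp (s - 1) * Real.exp (1 - s) :=
        mul_le_mul_of_nonneg_right h1 (Real.exp_pos _).le
    _ = 1 := h2

theorem G_lt (s : ℝ) (hs : s ≠ 1) : s * Real.exp (1 - s) < 1 := by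
  have h := Real.add_one_lt_exp (show s - 1 ≠ 0 from sub_ne_zero.2 hs)
  have h1 : s < Real.exp (s - 1) := by linarith
  have h2 : Real.exp (s - 1) * Real.exp (1 - s) = 1 := by
    rw [← Real.exp_add]; simp
  calc s * Real.exp (1 - s) < Real.exp (s - 1) * Real.exp (1 - s) :=
        mul_lt_mul_of_pos_right h1 (Real.exp_pos _)
    _ = 1 := h2

theorem fvd_sq (hPM : ST_PMAXR) {d K : ℕ} (hd : 1 ≤ d) (y : (Fin K × Fin 2 → Fin d) → ℝ) :
    fvd d K y ^ 2 ≤ (nsq y * Real.exp (1 - nsq y)) ^ d := by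
  have hq := qd_pos hd
  have h := hPM d hd (Fin K × Fin 2) K (by simp [mul_comm]) y
  have h1 : fvd d K y ^ 2 = (PJ (Fin K × Fin 2) y) ^ 2 * Real.exp (1 - nsq y) ^ d /
      (qd d ^ K) ^ 2 := by
    unfold fvd
    have h2 : Real.exp (-((d : ℝ) / 2) * (nsq y - 1)) ^ 2 = Real.exp (1 - nsq y) ^ d := by
      rw [← Real.exp_nat_mul, ← Real.exp_nat_mul]
      congr 1
      push_cast
      ring
    rw [div_pow, mul_pow, h2]
  rw [h1, div_le_iff₀ (by positivity), mul_pow]
  calc (PJ (Fin K × Fin 2) y) ^ 2 * Real.exp (1 - nsq y) ^ d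
      ≤ (qd d ^ K) ^ 2 * nsq y ^ d * Real.exp (1 - nsq y) ^ d :=
        mul_le_mul_of_nonneg_right h (by positivity)
    _ = nsq y ^ d * Real.exp (1 - nsq y) ^ d * (qd d ^ K) ^ 2 := by ring

theorem G_nonneg {ι : Type} [Fintype ι] (y : ι → ℝ) : 0 ≤ nsq y * Real.exp (1 - nsq y) :=
  mul_nonneg (nn y) (Real.exp_pos _).le

theorem fvd_sq_le_G (hPM : ST_PMAXR) {d K : ℕ} (hd : 1 ≤ d) (y : (Fin K × Fin 2 → Fin d) → ℝ) :
    fvd d K y ^ 2 ≤ nsq y * Real.exp (1 - nsq y) := by
  refine (fvd_sq hPM hd y).trans ?_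
  exact pow_le_of_le_one (G_nonneg y) (G_le _) (by omega)

theorem fvd_sq_le_one (hPM : ST_PMAXR) {d K : ℕ} (hd : 1 ≤ d)
    (y : (Fin K × Fin 2 → Fin d) → ℝ) : fvd d K y ^ 2 ≤ 1 :=
  (fvd_sq_le_G hPM hd y).trans (G_le _)

/-- The maximisers. -/
def Mx (d K : ℕ) : Set ((Fin K × Fin 2 → Fin d) → ℝ) :=
  {z | ∃ (s : ℤˣ) (π : Equiv.Perm (Fin K × Fin 2)) (O : Fin K → Md d), (∀ p, OD (O p)) ∧
    z = fun a => ((s : ℤ) : ℝ) * pt π O a}

theorem mem_Mx (hPM : ST_PMAXR) (hU : ST_UNIQ) {d K : ℕ} (hd : 3 ≤ d)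
    (y : (Fin K × Fin 2 → Fin d) → ℝ) (hy : 1 ≤ fvd d K y ^ 2) : y ∈ Mx d K := by
  have hq := qd_pos (show 1 ≤ d by omega)
  have h1 : nsq y = 1 := by
    by_contra h
    have h2 := G_lt (nsq y) h
    have h3 := fvd_sq_le_G hPM (show 1 ≤ d by omega) y
    linarith
  have h2 : fvd d K y = PJ (Fin K × Fin 2) y / qd d ^ K := by
    unfold fvd
    rw [h1]; simp
  have h3 := hPM d (by omega) (Fin K × Fin 2) K (by simp [mul_comm]) y
  rw [h1, one_pow, mul_one] at h3
  rw [h2, div_pow, le_div_iff₀ (by positivity), one_mul] at hy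
  have h4 : (PJ (Fin K × Fin 2) y) ^ 2 = (qd d ^ K) ^ 2 := le_antisymm h3 hy
  have h5 : |PJ (Fin K × Fin 2) y| = qd d ^ K := by
    rw [← Real.sqrt_sq_eq_abs, h4, Real.sqrt_sq (by positivity)]
  obtain ⟨s, φ, O, hO, hs⟩ := hU d hd K (Fin K × Fin 2) (by simp [mul_comm]) y h1 h5
  exact ⟨s, φ, O, hO, funext hs⟩

theorem far (hPM : ST_PMAXR) (hU : ST_UNIQ) (d K : ℕ) (hd : 3 ≤ d) (ρ : ℝ) (hρ : 0 < ρ) :
    ∃ θ : ℝ, 0 < θ ∧ θ < 1 ∧ ∀ y : (Fin K × Fin 2 → Fin d) → ℝ,
      (∀ z ∈ Mx d K, ρ ≤ nsq (fun a => y a - z a)) → fvd d K y ^ 2 ≤ θ := by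
  set A : Set ((Fin K × Fin 2 → Fin d) → ℝ) :=
    {y | nsq y ≤ 9 ∧ ∀ z ∈ Mx d K, ρ ≤ nsq (fun a => y a - z a)} with hA
  have hcl : IsClosed A := by
    have h1 : IsClosed {y : (Fin K × Fin 2 → Fin d) → ℝ | nsq y ≤ 9} :=
      isClosed_le cont_nsq continuous_const
    have h2 : IsClosed {y : (Fin K × Fin 2 → Fin d) → ℝ |
        ∀ z ∈ Mx d K, ρ ≤ nsq (fun a => y a - z a)} := by
      have : {y : (Fin K × Fin 2 → Fin d) → ℝ |
          ∀ z ∈ Mx d K, ρ ≤ nsq (fun a => y a - z a)} =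
          ⋂ z ∈ Mx d K, {y : (Fin K × Fin 2 → Fin d) → ℝ | ρ ≤ nsq (fun a => y a - z a)} := by
        ext y
        simp
      rw [this]
      refine isClosed_biInter fun z _ => isClosed_le continuous_const ?_
      exact cont_nsq.comp (continuous_pi fun a => (continuous_apply a).sub continuous_const)
    exact h1.inter h2
  have hbd : Bornology.IsBounded A := by
    refine (Metric.isBounded_closedBall (x := (0 : (Fin K × Fin 2 → Fin d) → ℝ)) (r := 3)).subset ?_
    intro y hy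
    rw [mem_closedBall_zero_iff, pi_norm_le_iff_of_nonneg (by norm_num)]
    intro a
    have h1 : y a ^ 2 ≤ nsq y :=
      single_le_sum (f := fun a => y a ^ 2) (fun _ _ => sq_nonneg _) (mem_univ a)
    rw [Real.norm_eq_abs]
    exact abs_le_of_sq_le_sq (by linarith [hy.1]) (by norm_num)
  have hcp : IsCompact A := Metric.isCompact_of_isClosed_isBounded hcl hbd
  have hbig : ∀ y : (Fin K × Fin 2 → Fin d) → ℝ, 9 ≤ nsq y → fvd d K y ^ 2 ≤ 1 / 2 := by
    intro y hy
    refine (fvd_sq_le_G hPM (by omega) y).trans ?_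
    have h1 := Real.add_one_le_exp ((nsq y - 1) / 2)
    have h2 : Real.exp (nsq y - 1) = Real.exp ((nsq y - 1) / 2) ^ 2 := by
      rw [← Real.exp_nat_mul]; congr 1; push_cast; ring
    have h3 : ((nsq y - 1) / 2 + 1) ^ 2 ≤ Real.exp (nsq y - 1) := by
      rw [h2]
      exact pow_le_pow_left₀ (by linarith) h1 2
    have h4 : 2 * nsq y ≤ Real.exp (nsq y - 1) := by nlinarith
    have h5 : Real.exp (nsq y - 1) * Real.exp (1 - nsq y) = 1 := by
      rw [← Real.exp_add]; simp
    have h6 := Real.exp_pos (1 - nsq y)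
    nlinarith
  rcases A.eq_empty_or_nonempty with h0 | h0
  · refine ⟨1 / 2, by norm_num, by norm_num, fun y hy => ?_⟩
    rcases le_total 9 (nsq y) with h | h
    · exact hbig y h
    · exact absurd (show y ∈ A from ⟨h, hy⟩) (by rw [h0]; simp)
  · obtain ⟨y0, hy0, hmax⟩ := hcp.exists_isMaxOn h0
      (((cont_fvd d K).pow 2).continuousOn (s := A))
    have hlt : fvd d K y0 ^ 2 < 1 := by
      by_contra h
      have h1 := mem_Mx hPM hU hd y0 (not_lt.1 h)
      have h2 := hy0.2 y0 h1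
      have h3 : nsq (fun a => y0 a - y0 a) = 0 := by simp [nsq]
      linarith
    refine ⟨max (1 / 2) (fvd d K y0 ^ 2), lt_max_of_lt_left (by norm_num),
      max_lt (by norm_num) hlt, fun y hy => ?_⟩
    rcases le_total 9 (nsq y) with h | h
    · exact (hbig y h).trans (le_max_left _ _)
    · exact (hmax (show y ∈ A from ⟨h, hy⟩)).trans (le_max_right _ _)

/-- The lower bound at a maximiser. -/
theorem near (hACTM : ST_ACTM) (hINV : ST_PSINV) {d K N : ℕ} (c : ℝ)
    (hL : ∀ x : (Fin K × Fin 2 → Fin d) → ℝ, c *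
      Real.exp (-(N : ℝ) * nsq (fun a => x a - u0 d K a) -
        2 * Real.sqrt (nsq (fun a => x a - u0 d K a))) ≤ Psid d K N x)
    (z : (Fin K × Fin 2 → Fin d) → ℝ) (hz : z ∈ Mx d K) (y : (Fin K × Fin 2 → Fin d) → ℝ) :
    c * Real.exp (-(N : ℝ) * nsq (fun a => y a - z a) -
        2 * Real.sqrt (nsq (fun a => y a - z a))) ≤ Psid d K N y := by
  obtain ⟨s, π, O, hO, rfl⟩ := hz
  obtain ⟨-, i2, i3⟩ := hINV d K N y
  set y1 : (Fin K × Fin 2 → Fin d) → ℝ := fun a => y (a ∘ π.symm) with hy1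
  have e1 : Psid d K N y1 = Psid d K N y := i2 π.symm
  have e2 : nsq (fun a => y1 a - ((s : ℤ) : ℝ) * pt (Equiv.refl _) O a) =
      nsq (fun a => y a - ((s : ℤ) : ℝ) * pt π O a) := by
    rw [← nsq_perm π.symm (fun a => y a - ((s : ℤ) : ℝ) * pt π O a)]
    congr 1
    funext a
    have : pt π O (a ∘ π.symm) = pt (Equiv.refl _) O a := by
      unfold pt
      simp
    rw [this]
  set A : Fin K × Fin 2 → Md d := fun j => if j.2 = 0 then (O j.1).transpose else 1 with hA
  have hAO : ∀ j, OD (A j) := by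
    intro j
    simp only [hA]
    split_ifs
    · exact od_tr (hO j.1)
    · unfold OD; simp
  have e3 : act A (pt (Equiv.refl _) O) = u0 d K := by
    rw [hACTM.2.2 d K (Fin K × Fin 2) A (Equiv.refl _) O]
    unfold u0
    congr 1
    funext p
    have h1 : (O p).transpose * O p = 1 := mul_eq_one_comm.mp (hO p)
    simp [hA, h1]
  set y2 : (Fin K × Fin 2 → Fin d) → ℝ := act A y1 with hy2
  have e4 : Psid d K N y2 = Psid d K N y1 := (hINV d K N y1).1 A hAO
  have e5 : nsq (fun a => y2 a - ((s : ℤ) : ℝ) * u0 d K a) =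
      nsq (fun a => y a - ((s : ℤ) : ℝ) * pt π O a) := by
    rw [← e2, ← nsq_act hACTM _ A hAO (fun a => y1 a - ((s : ℤ) : ℝ) * pt (Equiv.refl _) O a),
      act_sub, act_smul', e3]
  rcases Int.units_eq_one_or s with h | h
  · rw [h] at e5
    simp only [Units.val_one, Int.cast_one, one_mul] at e5
    have h1 := hL y2
    rw [e5, e4, e1] at h1
    rw [h]
    simp only [Units.val_one, Int.cast_one, one_mul]
    exact h1
  · rw [h] at e5
    have h1 := hL (fun a => -y2 a)
    have e6 : nsq (fun a => -y2 a - u0 d K a) =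
        nsq (fun a => y2 a - (((-1 : ℤˣ) : ℤ) : ℝ) * u0 d K a) := by
      unfold nsq
      refine sum_congr rfl fun a _ => ?_
      simp only [Units.val_neg, Units.val_one, Int.cast_neg, Int.cast_one]
      ring
    rw [e6, e5, (hINV d K N y2).2.2, e4, e1] at h1
    rw [h]
    exact h1

theorem integ (ι : Type) [Fintype ι] : Integrable (fun x : ι → ℝ => Real.exp (-(nsq x) / 2)) := by
  have h : Integrable (fun x : ι → ℝ => ∏ i, Real.exp (-(1 / 2) * (x i) ^ 2)) :=
    Integrable.fintype_prod fun _ => integrable_exp_neg_mul_sq (by norm_num)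
  refine h.congr (Eventually.of_forall fun x => ?_)
  simp only
  rw [← Real.exp_sum]
  congr 1
  unfold nsq
  rw [← mul_sum]
  ring

/-- The weight. -/
noncomputable def wt (d K : ℕ) (y : (Fin K × Fin 2 → Fin d) → ℝ) : ℝ :=
  fvd d K y ^ 2 * Real.exp (2 * Real.sqrt (nsq (fun a => y a - u0 d K a)))

theorem cont_wt (d K : ℕ) : Continuous (wt d K) := by
  unfold wt
  have h1 := cont_fvd d K
  have h2 : Continuous (fun y : (Fin K × Fin 2 → Fin d) → ℝ =>
      nsq (fun a => y a - u0 d K a)) :=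
    cont_nsq.comp (continuous_pi fun a => (continuous_apply a).sub continuous_const)
  fun_prop

theorem wt_nonneg (d K : ℕ) (y : (Fin K × Fin 2 → Fin d) → ℝ) : 0 ≤ wt d K y :=
  mul_nonneg (sq_nonneg _) (Real.exp_pos _).le

theorem wt_int (hPM : ST_PMAXR) (hPTV : ST_PTV) (d K : ℕ) (hd : 3 ≤ d) :
    Integrable (wt d K) := by
  have hu : nsq (u0 d K) = 1 :=
    (hPTV d (by omega) K (Fin K × Fin 2) (Equiv.refl _) (fun _ => 1) (fun _ => 1)
      (fun p => by unfold OD; simp)).2.1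
  refine ((integ (Fin K × Fin 2 → Fin d)).const_mul (4 * Real.exp 10)).mono'
    (cont_wt d K).aestronglyMeasurable (Eventually.of_forall fun y => ?_)
  rw [Real.norm_eq_abs, abs_of_nonneg (wt_nonneg d K y)]
  have h1 := fvd_sq_le_G hPM (show 1 ≤ d by omega) y
  set s := nsq y with hs
  have hs0 : 0 ≤ s := nn y
  set B := nsq (fun a => y a - u0 d K a) with hB
  have hB0 : 0 ≤ B := nn _
  have hBs : B ≤ 2 * s + 2 := by
    have : B ≤ 2 * nsq y + 2 * nsq (u0 d K) := by
      rw [hB]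
      unfold nsq
      rw [mul_sum, mul_sum, ← sum_add_distrib]
      refine sum_le_sum fun a _ => ?_
      nlinarith [sq_nonneg (y a + u0 d K a)]
    rw [hu] at this
    linarith
  have hsq : 2 * Real.sqrt B ≤ s / 4 + 9 := by
    have h2 := Real.sq_sqrt hB0
    nlinarith [sq_nonneg (Real.sqrt B - 8), Real.sqrt_nonneg B]
  have hs4 : s ≤ 4 * Real.exp (s / 4) := by
    have := Real.add_one_le_exp (s / 4)
    linarith
  unfold wt
  calc fvd d K y ^ 2 * Real.exp (2 * Real.sqrt B)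
      ≤ (s * Real.exp (1 - s)) * Real.exp (s / 4 + 9) := by
        refine mul_le_mul h1 (Real.exp_le_exp.2 hsq) (Real.exp_pos _).le ?_
        exact mul_nonneg hs0 (Real.exp_pos _).le
    _ ≤ (4 * Real.exp (s / 4) * Real.exp (1 - s)) * Real.exp (s / 4 + 9) := by
        gcongr
    _ = 4 * Real.exp 10 * Real.exp (-s / 2) := by
        rw [mul_assoc, mul_assoc, mul_assoc, ← Real.exp_add, ← Real.exp_add, ← Real.exp_add]
        congr 2
        ring

/-- Powers against exponentials. -/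
theorem pow_exp (E : ℕ) (c : ℝ) (hc : 0 < c) (N : ℕ) :
    (N : ℝ) ^ E ≤ (E.factorial : ℝ) / c ^ E * Real.exp (c * N) := by
  have h := Real.pow_div_factorial_le_exp (c * N) (by positivity) E
  rw [mul_pow, div_le_iff₀ (by positivity)] at h
  rw [div_mul_eq_mul_div, le_div_iff₀ (by positivity)]
  linarith

/-- OUT. -/
theorem st_OUT (hLOW : ST_LOW1) (hINV : ST_PSINV) (hACTM : ST_ACTM) (hPM : ST_PMAXR)
    (hU : ST_UNIQ) (hPTV : ST_PTV) (hPSC : ST_PSC) : ST_OUT := by
  intro d hd K r hr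
  obtain ⟨c, E, hc, hL⟩ := hLOW d (by omega) K
  obtain ⟨θ, hθ0, hθ1, hfar⟩ := far hPM hU d K hd (r / 16) (by positivity)
  -- the integrand
  set F : ℕ → ((Fin K × Fin 2 → Fin d) → ℝ) → ℝ := fun N y =>
    fvd d K y ^ (2 * N) * Real.exp (-(N : ℝ) * nsq (fun a => y a - u0 d K a)) / Psid d K N y
    with hF
  have hcont : ∀ N, Continuous (F N) := by
    intro N
    have h1 := cont_fvd d K
    have h2 : Continuous (fun y : (Fin K × Fin 2 → Fin d) → ℝ =>
        nsq (fun a => y a - u0 d K a)) :=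
      cont_nsq.comp (continuous_pi fun a => (continuous_apply a).sub continuous_const)
    have h3 := (hPSC d K N).1
    have h4 : ∀ y, Psid d K N y ≠ 0 := fun y => ((hPSC d K N).2.1 y).ne'
    exact ((h1.pow _).mul (Real.continuous_exp.comp (continuous_const.mul h2))).div h3 h4
  have hFnn : ∀ N y, 0 ≤ F N y := fun N y =>
    div_nonneg (mul_nonneg (by rw [pow_mul]; positivity) (Real.exp_pos _).le)
      ((hPSC d K N).2.1 y).le
  -- general bound
  have key : ∀ (N : ℕ), 1 ≤ N → ∀ (y z : (Fin K × Fin 2 → Fin d) → ℝ), z ∈ Mx d K →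
      F N y ≤ fvd d K y ^ (2 * N) * ((N : ℝ) ^ E / c *
        Real.exp (-(N : ℝ) * (nsq (fun a => y a - u0 d K a) - nsq (fun a => y a - z a)) +
          2 * Real.sqrt (nsq (fun a => y a - z a)))) := by
    intro N hN y z hz
    have hN0 : (0 : ℝ) < (N : ℝ) := by exact_mod_cast hN
    have h1 := near hACTM hINV (c / (N : ℝ) ^ E) (hL N hN) z hz y
    have hP := (hPSC d K N).2.1 y
    simp only [hF]
    rw [mul_div_assoc]
    refine mul_le_mul_of_nonneg_left ?_ (by rw [pow_mul]; positivity)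
    rw [div_le_iff₀ hP]
    refine le_trans ?_ (mul_le_mul_of_nonneg_left h1 (by positivity))
    have h2 : (N : ℝ) ^ E / c *
        Real.exp (-(N : ℝ) * (nsq (fun a => y a - u0 d K a) - nsq (fun a => y a - z a)) +
          2 * Real.sqrt (nsq (fun a => y a - z a))) * (c / (N : ℝ) ^ E *
        Real.exp (-(N : ℝ) * nsq (fun a => y a - z a) -
          2 * Real.sqrt (nsq (fun a => y a - z a)))) =
        ((N : ℝ) ^ E / c * (c / (N : ℝ) ^ E)) * (Real.exp (-(N : ℝ) *
          (nsq (fun a => y a - u0 d K a) - nsq (fun a => y a - z a)) +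
          2 * Real.sqrt (nsq (fun a => y a - z a))) *
          Real.exp (-(N : ℝ) * nsq (fun a => y a - z a) -
          2 * Real.sqrt (nsq (fun a => y a - z a)))) := by ring
    rw [h2, ← Real.exp_add]
    have h3 : (N : ℝ) ^ E / c * (c / (N : ℝ) ^ E) = 1 := by
      have : (N : ℝ) ^ E ≠ 0 := by positivity
      field_simp
    rw [h3, one_mul]
    apply le_of_eq
    congr 1
    ring
  have hu0 : u0 d K ∈ Mx d K := by
    refine ⟨1, Equiv.refl _, fun _ => 1, fun p => by unfold OD; simp, ?_⟩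
    funext a
    simp [u0]
  have hpow : ∀ (N : ℕ), 1 ≤ N → ∀ y, fvd d K y ^ (2 * N) =
      fvd d K y ^ 2 * (fvd d K y ^ 2) ^ (N - 1) := by
    intro N hN y
    rw [← pow_succ', ← pow_mul]
    congr 1
    omega
  have hone : ∀ y, fvd d K y ^ 2 ≤ 1 := fvd_sq_le_one hPM (by omega)
  have hbound : ∀ (N : ℕ), 1 ≤ N → ∀ y, F N y ≤ (N : ℝ) ^ E / c * wt d K y := by
    intro N hN y
    refine (key N hN y _ hu0).trans ?_
    rw [sub_self, mul_zero, zero_add, hpow N hN y]
    have h1 : (fvd d K y ^ 2) ^ (N - 1) ≤ 1 := pow_le_one₀ (sq_nonneg _) (hone y)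
    have h2 : 0 ≤ fvd d K y ^ 2 := sq_nonneg _
    unfold wt
    calc fvd d K y ^ 2 * (fvd d K y ^ 2) ^ (N - 1) * ((N : ℝ) ^ E / c *
          Real.exp (2 * Real.sqrt (nsq (fun a => y a - u0 d K a))))
        ≤ fvd d K y ^ 2 * 1 * ((N : ℝ) ^ E / c *
          Real.exp (2 * Real.sqrt (nsq (fun a => y a - u0 d K a)))) := by
          gcongr
      _ = _ := by ring
  have hint : ∀ N : ℕ, 1 ≤ N → Integrable (F N) := by
    intro N hN
    refine ((wt_int hPM hPTV d K hd).const_mul ((N : ℝ) ^ E / c)).mono'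
      (hcont N).aestronglyMeasurable (Eventually.of_forall fun y => ?_)
    rw [Real.norm_eq_abs, abs_of_nonneg (hFnn N y)]
    exact hbound N hN y
  -- the far region
  set κ : ℝ := max θ (Real.exp (-(15 / 16) * r)) with hκ
  have hκ0 : 0 < κ := lt_max_of_lt_left hθ0
  have hκ1 : κ < 1 := max_lt hθ1 (by
    rw [Real.exp_lt_one_iff]
    nlinarith)
  have hfarb : ∀ (N : ℕ), 1 ≤ N → ∀ y : (Fin K × Fin 2 → Fin d) → ℝ,
      r ≤ nsq (fun a => y a - u0 d K a) →
      F N y ≤ (N : ℝ) ^ E / c * (κ ^ (N - 1) * Real.exp (Real.sqrt r)) * wt d K y := by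
    intro N hN y hy
    have h2 : 0 ≤ fvd d K y ^ 2 := sq_nonneg _
    have hN0 : (0 : ℝ) < (N : ℝ) := by exact_mod_cast hN
    have hE1 : 1 ≤ Real.exp (Real.sqrt r) := Real.one_le_exp (Real.sqrt_nonneg _)
    by_cases hz : ∀ z ∈ Mx d K, r / 16 ≤ nsq (fun a => y a - z a)
    · have h3 := hfar y hz
      refine (key N hN y _ hu0).trans ?_
      rw [sub_self, mul_zero, zero_add, hpow N hN y]
      have h4 : (fvd d K y ^ 2) ^ (N - 1) ≤ κ ^ (N - 1) :=
        pow_le_pow_left₀ (sq_nonneg _) (h3.trans (le_max_left _ _)) _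
      unfold wt
      calc fvd d K y ^ 2 * (fvd d K y ^ 2) ^ (N - 1) * ((N : ℝ) ^ E / c *
            Real.exp (2 * Real.sqrt (nsq (fun a => y a - u0 d K a))))
          ≤ fvd d K y ^ 2 * (κ ^ (N - 1) * Real.exp (Real.sqrt r)) * ((N : ℝ) ^ E / c *
            Real.exp (2 * Real.sqrt (nsq (fun a => y a - u0 d K a)))) := by
            have h5 : (fvd d K y ^ 2) ^ (N - 1) ≤ κ ^ (N - 1) * Real.exp (Real.sqrt r) :=
              h4.trans (le_mul_of_one_le_right (by positivity) hE1)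
            gcongr
        _ = _ := by ring
    · push Not at hz
      obtain ⟨z, hz1, hz2⟩ := hz
      refine (key N hN y z hz1).trans ?_
      have h3 : fvd d K y ^ (2 * N) ≤ fvd d K y ^ 2 := by
        rw [hpow N hN y]
        exact mul_le_of_le_one_right h2 (pow_le_one₀ (sq_nonneg _) (hone y))
      have h4 : Real.exp (-(N : ℝ) * (nsq (fun a => y a - u0 d K a) -
          nsq (fun a => y a - z a)) + 2 * Real.sqrt (nsq (fun a => y a - z a))) ≤
          κ ^ (N - 1) * Real.exp (Real.sqrt r) := by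
        have h5 : Real.sqrt (nsq (fun a => y a - z a)) ≤ Real.sqrt r / 4 := by
          have : Real.sqrt r / 4 = Real.sqrt (r / 16) := by
            rw [show r / 16 = r / 4 ^ 2 by norm_num, Real.sqrt_div' _ (by norm_num),
              Real.sqrt_sq (by norm_num)]
          rw [this]
          exact Real.sqrt_le_sqrt hz2.le
        have h6 : 0 ≤ Real.sqrt r := Real.sqrt_nonneg r
        calc Real.exp (-(N : ℝ) * (nsq (fun a => y a - u0 d K a) -
              nsq (fun a => y a - z a)) + 2 * Real.sqrt (nsq (fun a => y a - z a)))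
            ≤ Real.exp ((N : ℝ) * (-(15 / 16) * r) + Real.sqrt r) := by
              refine Real.exp_le_exp.2 ?_
              have h7 : 15 / 16 * r ≤ nsq (fun a => y a - u0 d K a) -
                nsq (fun a => y a - z a) := by linarith
              nlinarith
          _ = Real.exp (-(15 / 16) * r) ^ N * Real.exp (Real.sqrt r) := by
              rw [Real.exp_add, Real.exp_nat_mul]
          _ ≤ κ ^ N * Real.exp (Real.sqrt r) := by
              gcongr
              exact le_max_right _ _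
          _ ≤ κ ^ (N - 1) * Real.exp (Real.sqrt r) := by
              refine mul_le_mul_of_nonneg_right ?_ (Real.exp_pos _).le
              exact pow_le_pow_of_le_one hκ0.le hκ1.le (by omega)
      have h8 : 1 ≤ Real.exp (2 * Real.sqrt (nsq (fun a => y a - u0 d K a))) :=
        Real.one_le_exp (by positivity)
      unfold wt
      calc fvd d K y ^ (2 * N) * ((N : ℝ) ^ E / c *
            Real.exp (-(N : ℝ) * (nsq (fun a => y a - u0 d K a) -
              nsq (fun a => y a - z a)) + 2 * Real.sqrt (nsq (fun a => y a - z a))))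
          ≤ fvd d K y ^ 2 * ((N : ℝ) ^ E / c * (κ ^ (N - 1) * Real.exp (Real.sqrt r))) := by
            gcongr
        _ ≤ fvd d K y ^ 2 * ((N : ℝ) ^ E / c * (κ ^ (N - 1) * Real.exp (Real.sqrt r))) *
            Real.exp (2 * Real.sqrt (nsq (fun a => y a - u0 d K a))) := by
            refine le_mul_of_one_le_right ?_ h8
            positivity
        _ = _ := by ring
  -- choice of the constants
  set c0 : ℝ := -Real.log κ / 2 with hc0
  have hlog : Real.log κ < 0 := Real.log_neg hκ0 hκ1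
  have hc0' : 0 < c0 := by rw [hc0]; linarith
  set I : ℝ := ∫ y, wt d K y with hI
  have hI0 : 0 ≤ I := integral_nonneg (wt_nonneg d K)
  refine ⟨c0, (E.factorial : ℝ) / c0 ^ E / c * (κ⁻¹ * Real.exp (Real.sqrt r)) * I, hc0',
    fun N hN => ⟨hint N hN, ?_⟩⟩
  have hms : MeasurableSet {y : (Fin K × Fin 2 → Fin d) → ℝ |
      r ≤ nsq (fun a => y a - u0 d K a)} := by
    refine (isClosed_le continuous_const ?_).measurableSet
    exact cont_nsq.comp (continuous_pi fun a => (continuous_apply a).sub continuous_const)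
  have h1 : ∫ y in {y : (Fin K × Fin 2 → Fin d) → ℝ | r ≤ nsq (fun a => y a - u0 d K a)},
      F N y ≤ (N : ℝ) ^ E / c * (κ ^ (N - 1) * Real.exp (Real.sqrt r)) * I := by
    rw [hI, ← integral_const_mul]
    refine (setIntegral_mono_on (hint N hN).integrableOn
      (((wt_int hPM hPTV d K hd).const_mul _).integrableOn) hms
      (fun y hy => hfarb N hN y hy)).trans ?_
    refine setIntegral_le_integral ((wt_int hPM hPTV d K hd).const_mul _)
      (Eventually.of_forall fun y => ?_)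
    have hN0 : (0 : ℝ) < (N : ℝ) := by exact_mod_cast hN
    exact mul_nonneg (by positivity) (wt_nonneg d K y)
  refine h1.trans ?_
  have h2 : κ ^ (N - 1) = κ⁻¹ * Real.exp (-(2 * c0) * N) := by
    have h3 : κ ^ N = Real.exp (-(2 * c0) * N) := by
      rw [hc0, show -(2 * (-Real.log κ / 2)) * (N : ℝ) = N * Real.log κ by ring,
        Real.exp_nat_mul, Real.exp_log hκ0]
    rw [← h3]
    obtain ⟨M, rfl⟩ : ∃ M, N = M + 1 := ⟨N - 1, by omega⟩
    simp only [Nat.add_sub_cancel]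
    rw [pow_succ]
    field_simp
  rw [h2]
  have h4 := pow_exp E c0 hc0' N
  have h5 : Real.exp (-(2 * c0) * N) = Real.exp (-c0 * N) * Real.exp (-c0 * N) := by
    rw [← Real.exp_add]; congr 1; ring
  have h6 : Real.exp (c0 * N) * Real.exp (-c0 * N) = 1 := by
    rw [← Real.exp_add]; simp
  calc (N : ℝ) ^ E / c * (κ⁻¹ * Real.exp (-(2 * c0) * N) * Real.exp (Real.sqrt r)) * I
      ≤ ((E.factorial : ℝ) / c0 ^ E * Real.exp (c0 * N)) / c *
        (κ⁻¹ * Real.exp (-(2 * c0) * N) * Real.exp (Real.sqrt r)) * I := by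
        gcongr
    _ = (E.factorial : ℝ) / c0 ^ E / c * (κ⁻¹ * Real.exp (Real.sqrt r)) * I *
        (Real.exp (c0 * N) * Real.exp (-c0 * N)) * Real.exp (-c0 * N) := by
        rw [h5]; ring
    _ = _ := by rw [h6, mul_one]

end Pool.Agent.Helper15.T6.Out
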